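import Mathlib

/-! Scale-free percolation on `ℤ^d` with edge-weights: weighted distance and explosion time. -/

namespace Pool.Agent.H998Z.SFP

open scoped ENNReal

/-- Euclidean distance of two points of `ℤ^d`. -/
noncomputable def euc {d : ℕ} (x y : Fin d → ℤ) : ℝ :=
  Real.sqrt (∑ i, ((x i : ℝ) - (y i : ℝ)) ^ 2)

/-- The scale-free percolation graph on `ℤ^d`, given the vertex-weights `W` and the variables `E`
(uniform on `[0,1]` in the model) that decide the long edges: points at Euclidean distance `1` are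
joined, and `x`, `y` at distance `> 1` are joined when
`E {x,y} ≤ 1 - exp (- lam W_x W_y / ‖x - y‖ ^ α)`. -/
def sfp {d : ℕ} (α lam : ℝ) (W : (Fin d → ℤ) → ℝ) (E : Sym2 (Fin d → ℤ) → ℝ) :
    SimpleGraph (Fin d → ℤ) where
  Adj x y := euc x y = 1 ∨
    (1 < euc x y ∧ E s(x, y) ≤ 1 - Real.exp (-(lam * (W x * W y) / euc x y ^ α)))
  symm := ⟨fun x y h => by
    have e : euc y x = euc x y := by
      unfold euc; congr 1; exact Finset.sum_congr rfl fun i _ => by ring
    rw [e, Sym2.eq_swap, mul_comm (W y)]; exact h⟩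
  loopless := ⟨fun x h => by
    have e : euc x x = 0 := by simp [euc]
    rw [e] at h
    rcases h with h | h
    · exact absurd h (by norm_num)
    · exact absurd h.1 (by norm_num)⟩

/-- The weighted distance `d_L(x,y)`: the infimum, over the paths from `x` to `y` in `G`, of the
sum of the edge-weights along the path. -/
noncomputable def wdist {V : Type} (G : SimpleGraph V) (L : Sym2 V → ℝ) (x y : V) : ℝ≥0∞ :=
  ⨅ p : G.Path x y, (p.1.edges.map fun e => ENNReal.ofReal (L e)).sum

/-- `τ_n(x)`: the first time at which the ball `{y : d_L(x,y) ≤ t}` has at least `n` vertices. -/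
noncomputable def tau {V : Type} (G : SimpleGraph V) (L : Sym2 V → ℝ) (x : V) (n : ℕ) : ℝ≥0∞ :=
  sInf {t : ℝ≥0∞ | (n : ℕ∞) ≤ {y | wdist G L x y ≤ t}.encard}

/-- The explosion time `V_x`, the limit of the non-decreasing sequence `τ_n(x)`. -/
noncomputable def explosion {V : Type} (G : SimpleGraph V) (L : Sym2 V → ℝ) (x : V) : ℝ≥0∞ :=
  ⨆ n : ℕ, tau G L x n

/-- `ℓ` is slowly varying at infinity. -/
def SlowlyVarying (ℓ : ℝ → ℝ) : Prop :=
  ∀ c : ℝ, 0 < c → Filter.Tendsto (fun t => ℓ (c * t) / ℓ t) Filter.atTop (nhds 1)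

/-- The generalised inverse `F⁻¹(u) = inf {t : F(t) ≥ u}` of the distribution function `F` of the
law `μ`. -/
noncomputable def genInv (μ : MeasureTheory.Measure ℝ) (u : ℝ) : ℝ :=
  sInf {t : ℝ | u ≤ μ.real (Set.Iic t)}

end Pool.Agent.H998Z.SFP
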