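import Pool.Agent.H998Z.SFP.Defs

/-! Deterministic facts on the weighted distance. -/

namespace Pool.Agent.H998Z.SFP

open scoped ENNReal

variable {V : Type}

open Classical in
/-- cost of a step -/
noncomputable def cst (G : SimpleGraph V) (L : Sym2 V → ℝ) (x y : V) : ℝ≥0∞ :=
  if G.Adj x y then ENNReal.ofReal (L s(x, y)) else ⊤

/-- cost of a list of steps -/
noncomputable def lcost (c : V → V → ℝ≥0∞) : V → List V → ℝ≥0∞
  | _, [] => 0
  | x, y :: l => c x y + lcost c y l

/-- end point of a list of steps -/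
def lend : V → List V → V
  | x, [] => x
  | _, y :: l => lend y l

/-- length of a walk -/
noncomputable def wlen {G : SimpleGraph V} (L : Sym2 V → ℝ) {x y : V} (p : G.Walk x y) : ℝ≥0∞ :=
  (p.edges.map fun e => ENNReal.ofReal (L e)).sum

variable (G : SimpleGraph V) (L : Sym2 V → ℝ)

lemma wdist_le_wlen {x y : V} (p : G.Walk x y) : wdist G L x y ≤ wlen L p := by
  classical
  refine le_trans (iInf_le _ p.toPath) ?_
  have h1 : (p.toPath : G.Walk x y).edges.Nodup := p.toPath.2.isTrail.edges_nodup
  have h2 : (p.toPath : G.Walk x y).edges ⊆ p.edges := SimpleGraph.Walk.edges_toPath_subset_edges p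
  obtain ⟨l, hl, hs⟩ := (List.subperm_of_subset h1 h2)
  unfold wlen
  rw [← (hl.map _).sum_eq]
  exact List.Sublist.sum_le_sum (hs.map _) (fun _ _ => zero_le)

lemma wdist_eq (x y : V) : wdist G L x y = ⨅ p : G.Walk x y, wlen L p :=
  le_antisymm (le_iInf fun p => wdist_le_wlen G L p) (le_iInf fun p => iInf_le _ p.1)

lemma wdist_self (x : V) : wdist G L x x = 0 :=
  le_antisymm ((wdist_le_wlen G L SimpleGraph.Walk.nil).trans (by simp [wlen])) zero_le

lemma wdist_comm (x y : V) : wdist G L x y = wdist G L y x := by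
  have : ∀ a b : V, wdist G L a b ≤ wdist G L b a := by
    intro a b
    rw [wdist_eq G L b a]
    refine le_iInf fun p => (wdist_le_wlen G L p.reverse).trans (le_of_eq ?_)
    simp [wlen, List.map_reverse, List.sum_reverse]
  exact le_antisymm (this x y) (this y x)

lemma wdist_triangle (x y z : V) : wdist G L x z ≤ wdist G L x y + wdist G L y z := by
  rw [wdist_eq G L x y, wdist_eq G L y z]
  refine ENNReal.le_iInf_add_iInf fun p q => (wdist_le_wlen G L (p.append q)).trans (le_of_eq ?_)
  simp [wlen]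

lemma wdist_le_cst (x y : V) : wdist G L x y ≤ cst G L x y := by
  unfold cst
  split_ifs with h
  · exact (wdist_le_wlen G L h.toWalk).trans (by simp [wlen, SimpleGraph.Adj.toWalk])
  · exact le_top

lemma wdist_le_lcost (l : List V) (x : V) : wdist G L x (lend x l) ≤ lcost (cst G L) x l := by
  induction l generalizing x with
  | nil => simp [lend, lcost, wdist_self]
  | cons y l ih =>
    simp only [lend, lcost]
    exact (wdist_triangle G L x y _).trans (add_le_add (wdist_le_cst G L x y) (ih y))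

lemma walk_list {x y : V} (p : G.Walk x y) :
    ∃ l : List V, lend x l = y ∧ lcost (cst G L) x l = wlen L p := by
  induction p with
  | nil => exact ⟨[], rfl, by simp [lcost, wlen]⟩
  | @cons a b c h p ih =>
    obtain ⟨l, h1, h2⟩ := ih
    refine ⟨b :: l, h1, ?_⟩
    simp only [lcost, h2, wlen, cst, if_pos h, SimpleGraph.Walk.edges_cons, List.map_cons,
      List.sum_cons]

lemma wdist_eq_list (x y : V) :
    wdist G L x y = ⨅ l : List V, ⨅ _ : lend x l = y, lcost (cst G L) x l := by
  refine le_antisymm (le_iInf fun l => le_iInf fun h => h ▸ wdist_le_lcost G L l x) ?_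
  rw [wdist_eq]
  refine le_iInf fun p => ?_
  obtain ⟨l, h1, h2⟩ := walk_list G L p
  exact iInf_le_of_le l (iInf_le_of_le h1 h2.le)

lemma first_exit (c : V → V → ℝ≥0∞) (Λ : Set V) (l : List V) (x : V) (hx : x ∈ Λ)
    (hl : lend x l ∉ Λ) : ∃ u, u ∉ Λ ∧ ∃ l' : List V, (∀ v ∈ l', v ∈ Λ) ∧
      lcost c x l' + c (lend x l') u ≤ lcost c x l := by
  induction l generalizing x with
  | nil => exact absurd hx hl
  | cons y l ih =>
    by_cases hy : y ∈ Λ
    · obtain ⟨u, hu, l', h1, h2⟩ := ih y hy hl
      refine ⟨u, hu, y :: l', by simpa using ⟨hy, h1⟩, ?_⟩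
      simp only [lcost, lend, add_assoc]
      gcongr
    · exact ⟨y, hy, [], by simp, by simp [lcost, lend]⟩

lemma lend_mem {Λ : Set V} (l : List V) (x : V) (hx : x ∈ Λ) (hl : ∀ v ∈ l, v ∈ Λ) :
    lend x l ∈ Λ := by
  induction l generalizing x with
  | nil => exact hx
  | cons y l ih => exact ih y (hl y (by simp)) fun v hv => hl v (by simp [hv])

lemma lcost_mono {c c' : V → V → ℝ≥0∞} {Λ : Set V} (h : ∀ a ∈ Λ, ∀ b ∈ Λ, c' a b ≤ c a b)
    (l : List V) (x : V) (hx : x ∈ Λ) (hl : ∀ v ∈ l, v ∈ Λ) : lcost c' x l ≤ lcost c x l := by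
  induction l generalizing x with
  | nil => exact le_rfl
  | cons y l ih =>
    exact add_le_add (h x hx y (hl y (by simp)))
      (ih y (hl y (by simp)) fun v hv => hl v (by simp [hv]))

lemma infinite_of_lt {x : V} {t : ℝ≥0∞} (h : explosion G L x < t) :
    {y | wdist G L x y < t}.Infinite := by
  intro hf
  obtain ⟨s, hs, hst⟩ := sInf_lt_iff.1
    (lt_of_le_of_lt (le_iSup (tau G L x) (hf.toFinset.card + 1)) h)
  have h1 : {y | wdist G L x y ≤ s}.encard ≤ {y | wdist G L x y < t}.encard :=
    Set.encard_le_encard fun y hy => lt_of_le_of_lt hy hst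
  have h2 := le_trans hs h1
  rw [hf.encard_eq_coe_toFinset_card] at h2
  have : hf.toFinset.card + 1 ≤ hf.toFinset.card := by exact_mod_cast h2
  omega

end Pool.Agent.H998Z.SFP
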