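import Pool.Agent.H998Z.SFP.Defs

/-! Choice of the scales. -/

namespace Pool.Agent.H998Z.SFP

open MeasureTheory Set Filter Topology
open scoped ENNReal

lemma tail_lower (μ : Measure ℝ) [IsProbabilityMeasure μ] {ℓ : ℝ → ℝ} {s s' : ℝ}
    (hℓ : SlowlyVarying ℓ) (hW : ∀ t : ℝ, 1 ≤ t → μ.real (Ioi t) = ℓ t * t ^ (-s))
    (hs0 : 0 < s) (hs : s < s') :
    ∃ c : ℝ, 0 < c ∧ ∃ T : ℝ, 1 ≤ T ∧ ∀ t, T ≤ t → c * t ^ (-s') ≤ μ.real (Ici t) := by
  have hq : (2 : ℝ) ^ (-(s' - s)) < 1 :=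
    Real.rpow_lt_one_of_one_lt_of_neg (by norm_num) (by linarith)
  have hq0 : 0 < (2 : ℝ) ^ (-(s' - s)) := by positivity
  obtain ⟨T0, hT0⟩ := eventually_atTop.1 ((hℓ 2 (by norm_num)).eventually (lt_mem_nhds hq))
  set T := max T0 1 with hT
  have hT1 : 1 ≤ T := le_max_right _ _
  have hpos : ∀ t, T ≤ t → 0 < ℓ t := by
    intro t ht
    have h1 := hT0 t (le_trans (le_max_left _ _) ht)
    have h2 : 0 ≤ ℓ t * t ^ (-s) := by rw [← hW t (hT1.trans ht)]; exact measureReal_nonneg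
    have h3 : 0 < t ^ (-s) := Real.rpow_pos_of_pos (by linarith) _
    have h4 : 0 ≤ ℓ t := nonneg_of_mul_nonneg_left h2 h3
    rcases h4.lt_or_eq with h | h
    · exact h
    · rw [← h, div_zero] at h1; linarith
  have hstep : ∀ t, T ≤ t → (2 : ℝ) ^ (-s') * μ.real (Ioi t) ≤ μ.real (Ioi (2 * t)) := by
    intro t ht
    have h1 := hT0 t (le_trans (le_max_left _ _) ht)
    have ht0 : 0 < t := by linarith
    rw [hW t (hT1.trans ht), hW (2 * t) (by linarith), Real.mul_rpow (by norm_num) ht0.le]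
    rw [lt_div_iff₀ (hpos t ht)] at h1
    have e : (2 : ℝ) ^ (-s') = (2 : ℝ) ^ (-(s' - s)) * 2 ^ (-s) := by
      rw [← Real.rpow_add (by norm_num)]; congr 1; ring
    have h3 : 0 < (2 : ℝ) ^ (-s) * t ^ (-s) := by positivity
    calc (2 : ℝ) ^ (-s') * (ℓ t * t ^ (-s))
        = ((2 : ℝ) ^ (-(s' - s)) * ℓ t) * (2 ^ (-s) * t ^ (-s)) := by rw [e]; ring
      _ ≤ ℓ (2 * t) * (2 ^ (-s) * t ^ (-s)) := by gcongr
  have hind : ∀ k : ℕ, ((2 : ℝ) ^ (-s')) ^ k * μ.real (Ioi T) ≤ μ.real (Ioi (2 ^ k * T)) := by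
    intro k
    induction k with
    | zero => simp
    | succ k ih =>
      have h1 : T ≤ 2 ^ k * T := le_mul_of_one_le_left (by linarith) (one_le_pow₀ (by norm_num))
      have h2 := hstep _ h1
      calc ((2 : ℝ) ^ (-s')) ^ (k + 1) * μ.real (Ioi T)
          = (2 : ℝ) ^ (-s') * (((2 : ℝ) ^ (-s')) ^ k * μ.real (Ioi T)) := by ring
        _ ≤ (2 : ℝ) ^ (-s') * μ.real (Ioi (2 ^ k * T)) := by gcongr
        _ ≤ _ := by rw [pow_succ, mul_comm _ (2 : ℝ), mul_assoc]; exact h2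
  have hG : 0 < μ.real (Ioi T) := by
    rw [hW T hT1]; exact mul_pos (hpos T le_rfl) (Real.rpow_pos_of_pos (by linarith) _)
  refine ⟨(2 : ℝ) ^ (-s') * μ.real (Ioi T), by positivity, T, hT1, fun t ht => ?_⟩
  obtain ⟨k, hk1, hk2⟩ := exists_nat_pow_near (x := t / T) (y := (2 : ℝ))
    (by rw [le_div_iff₀ (by linarith)]; linarith) (by norm_num)
  rw [div_lt_iff₀ (by linarith)] at hk2
  rw [le_div_iff₀ (by linarith)] at hk1
  have h1 : μ.real (Ioi (2 ^ (k + 1) * T)) ≤ μ.real (Ici t) :=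
    measureReal_mono fun x hx => le_trans hk2.le (le_of_lt hx)
  refine le_trans ?_ ((hind (k + 1)).trans h1)
  have h2 : t ^ (-s') ≤ ((2 : ℝ) ^ (-s')) ^ k := by
    rw [← Real.rpow_mul_natCast (by norm_num), mul_comm, Real.rpow_natCast_mul (by norm_num)]
    refine Real.rpow_le_rpow_of_nonpos (by positivity) ?_ (by linarith)
    exact le_trans (le_mul_of_one_le_right (by positivity) hT1) hk1
  calc (2 : ℝ) ^ (-s') * μ.real (Ioi T) * t ^ (-s')
      ≤ (2 : ℝ) ^ (-s') * μ.real (Ioi T) * ((2 : ℝ) ^ (-s')) ^ k := by gcongr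
    _ = _ := by ring

section
variable (μ : Measure ℝ) [IsProbabilityMeasure μ]

lemma inv_nonempty {u : ℝ} (hu : u < 1) : {t : ℝ | u ≤ μ.real (Iic t)}.Nonempty := by
  obtain ⟨t, ht⟩ := ((ProbabilityTheory.tendsto_cdf_atTop μ).eventually (lt_mem_nhds hu)).exists
  exact ⟨t, by rw [mem_ofPred_eq, ← ProbabilityTheory.cdf_eq_real]; exact ht.le⟩

omit [IsProbabilityMeasure μ] in
lemma inv_lb (h0 : μ (Iio 0) = 0) {u : ℝ} (hu : 0 < u) :
    ∀ t ∈ {t : ℝ | u ≤ μ.real (Iic t)}, 0 ≤ t := by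
  intro t ht
  by_contra h
  have : μ (Iic t) = 0 := measure_mono_null (fun x hx => lt_of_le_of_lt hx (not_le.1 h)) h0
  rw [mem_ofPred_eq, Measure.real, this] at ht
  simp at ht; linarith

lemma genInv_spec {u : ℝ} (hu : u < 1) :
    u ≤ μ.real (Iic (genInv μ u)) := by
  rw [← ProbabilityTheory.cdf_eq_real]
  have hc : Tendsto (ProbabilityTheory.cdf μ) (𝓝[>] (genInv μ u))
      (𝓝 (ProbabilityTheory.cdf μ (genInv μ u))) :=
    ((ProbabilityTheory.cdf μ).right_continuous _).mono Ioi_subset_Ici_self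
  refine ge_of_tendsto hc (eventually_nhdsWithin_of_forall fun t ht => ?_)
  obtain ⟨r, hr, hrt⟩ := exists_lt_of_csInf_lt (inv_nonempty μ hu) ht
  rw [ProbabilityTheory.cdf_eq_real]
  exact le_trans hr (measureReal_mono (Iic_subset_Iic.2 hrt.le))

lemma genInv_mono (h0 : μ (Iio 0) = 0) {u v : ℝ} (hu0 : 0 < u) (huv : u ≤ v) (hv : v < 1) :
    genInv μ u ≤ genInv μ v :=
  csInf_le_csInf ⟨0, inv_lb μ h0 hu0⟩ (inv_nonempty μ hv) fun _ ht => le_trans huv ht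

lemma ee_lt (y : ℝ) : Real.exp (-Real.exp y) < 1 :=
  Real.exp_lt_one_iff.2 (by have := Real.exp_pos y; linarith)

lemma eps_exists (h0 : μ (Iio 0) = 0)
    (hI : ∫⁻ y in Ioi (0 : ℝ), ENNReal.ofReal (genInv μ (Real.exp (-Real.exp y))) < ⊤)
    {h : ℝ} (hh : 0 < h) {δ : ℝ≥0∞} (hδ : 0 < δ) :
    ∃ y0 : ℝ, ∀ y, y0 ≤ y → ∃ ε : ℕ → ℝ, ∑' k, ENNReal.ofReal (ε k) ≤ δ ∧
      ∀ k : ℕ, Real.exp (-Real.exp (y + (k + 1) * h)) ≤ μ.real (Iic (ε k)) := by
  set G : ℝ → ℝ := fun y => genInv μ (Real.exp (-Real.exp y)) with hG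
  have anti : ∀ a b, a ≤ b → G b ≤ G a := fun a b hab =>
    genInv_mono μ h0 (Real.exp_pos _) (by gcongr) (ee_lt a)
  have hsum : ∑' k : ℕ, ENNReal.ofReal (G ((k + 1) * h)) * ENNReal.ofReal h ≤
      ∫⁻ y in Ioi (0 : ℝ), ENNReal.ofReal (G y) := by
    have hd : Pairwise (Function.onFun Disjoint fun k : ℕ => Ioc ((k : ℝ) * h) ((k + 1) * h)) := by
      have key : ∀ m n : ℕ, m < n →
          Disjoint (Ioc ((m : ℝ) * h) ((m + 1) * h)) (Ioc ((n : ℝ) * h) ((n + 1) * h)) := by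
        intro m n hmn
        have : (m : ℝ) + 1 ≤ n := by exact_mod_cast hmn
        refine Set.disjoint_left.2 fun y h1 h2 => ?_
        have := h1.2; have := h2.1; nlinarith
      intro m n hmn
      rcases lt_or_gt_of_ne hmn with h' | h'
      · exact key m n h'
      · exact (key n m h').symm
    calc ∑' k : ℕ, ENNReal.ofReal (G ((k + 1) * h)) * ENNReal.ofReal h
        ≤ ∑' k : ℕ, ∫⁻ y in Ioc ((k : ℝ) * h) ((k + 1) * h), ENNReal.ofReal (G y) := by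
          refine ENNReal.tsum_le_tsum fun k => ?_
          have : ENNReal.ofReal h = volume (Ioc ((k : ℝ) * h) ((k + 1) * h)) := by
            rw [Real.volume_Ioc]; congr 1; ring
          rw [this, ← setLIntegral_const]
          exact setLIntegral_mono' measurableSet_Ioc fun y hy =>
            ENNReal.ofReal_le_ofReal (anti _ _ hy.2)
      _ = ∫⁻ y in ⋃ k : ℕ, Ioc ((k : ℝ) * h) ((k + 1) * h), ENNReal.ofReal (G y) :=
          (lintegral_iUnion (fun _ => measurableSet_Ioc) hd _).symm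
      _ ≤ _ := lintegral_mono_set (iUnion_subset fun k y hy =>
          lt_of_le_of_lt (by positivity) hy.1)
  rw [ENNReal.tsum_mul_right] at hsum
  have hfin : ∑' k : ℕ, ENNReal.ofReal (G ((k + 1) * h)) ≠ ⊤ := by
    intro e
    rw [e, ENNReal.top_mul (by simpa using hh)] at hsum
    exact absurd (lt_of_le_of_lt hsum hI) (lt_irrefl _)
  obtain ⟨j, hj⟩ := ((ENNReal.tendsto_sum_nat_add _ hfin).eventually (gt_mem_nhds hδ)).exists
  refine ⟨j * h, fun y hy => ⟨fun k => G (y + (k + 1) * h), ?_, fun k =>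
    genInv_spec μ (ee_lt _)⟩⟩
  refine le_trans (ENNReal.tsum_le_tsum fun k => ENNReal.ofReal_le_ofReal (anti _ _ ?_)) hj.le
  push_cast; nlinarith

end

lemma scales {d : ℕ} (hd : 1 ≤ d) {α τ ρ : ℝ} (hα : (d : ℝ) < α) (hτ : 1 < τ)
    (hγ : α * (τ - 1) / d < 2) (hρ : 0 < ρ)
    (μW μL : Measure ℝ) [IsProbabilityMeasure μW] [IsProbabilityMeasure μL] {ℓ : ℝ → ℝ}
    (hℓ : SlowlyVarying ℓ) (hW : ∀ t : ℝ, 1 ≤ t → μW.real (Ioi t) = ℓ t * t ^ (-(τ - 1)))
    (h0 : μL (Iio 0) = 0)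
    (hI : ∫⁻ y in Ioi (0 : ℝ), ENNReal.ofReal (genInv μL (Real.exp (-Real.exp y))) < ⊤)
    {δ : ℝ≥0∞} (hδ : 0 < δ) :
    ∃ (M : ℕ → ℕ) (w ε : ℕ → ℝ), (∀ k, 1 ≤ M k) ∧ (∀ k, 4 * M k ≤ M (k + 1)) ∧ (∀ k, 0 ≤ w k) ∧
      (∀ k, (6 * d * M (k + 1) : ℝ) ^ α ≤ w k * w (k + 1)) ∧
      ∑' k, ENNReal.ofReal (ε k) ≤ δ ∧ 0 < μW.real (Ici (w 0)) ∧
      ∀ k, (16 * M k + 1 : ℝ) ^ (2 * d) * Real.exp (-((M (k + 1) : ℝ) ^ d *
        (μW.real (Ici (w (k + 1))) * (ρ * μL.real (Iic (ε k))) ^ 2))) ≤ (1 / 2) ^ (k + 2) := by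
  have hD : (1 : ℝ) ≤ d := by exact_mod_cast hd
  set D : ℝ := (d : ℝ) with hDdef
  have hα0 : 0 < α := by linarith
  rw [div_lt_iff₀ (by linarith)] at hγ
  obtain ⟨s', hs1, hs2⟩ : ∃ s', τ - 1 < s' ∧ s' < 2 * D / α :=
    exists_between (by rw [lt_div_iff₀ hα0]; linarith)
  have hs0 : 0 < s' := by linarith
  obtain ⟨β, hβ1, hβ2⟩ : ∃ β, α / 2 < β ∧ β < D / s' := by
    refine exists_between ?_
    rw [lt_div_iff₀ hα0] at hs2
    rw [lt_div_iff₀ hs0]; linarith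
  rw [lt_div_iff₀ hs0] at hβ2
  have hβ0 : 0 < β := by linarith
  obtain ⟨η, hη⟩ : ∃ η, η = (2 * β - α) / (2 * α) := ⟨_, rfl⟩
  have hη0 : 0 < η := by rw [hη]; apply div_pos <;> linarith
  have hηα : η * α = (2 * β - α) / 2 := by rw [hη]; field_simp
  obtain ⟨b, hb⟩ : ∃ b, b = 1 + η := ⟨_, rfl⟩
  have hb1 : 1 < b := by linarith
  obtain ⟨κ, hκ⟩ : ∃ κ, κ = β * (b + 1) - α * b := ⟨_, rfl⟩
  have hκ0 : 0 < κ := by rw [hκ, hb]; nlinarith
  obtain ⟨c3, hc3⟩ : ∃ c3, c3 = (D - β * s') / 3 := ⟨_, rfl⟩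
  have hc30 : 0 < c3 := by linarith
  obtain ⟨c, hc, T, hT1, hT⟩ := tail_lower μW hℓ hW (by linarith) hs1
  obtain ⟨y0, hy0⟩ := eps_exists μL h0 hI (Real.log_pos hb1) hδ
  obtain ⟨A, hA⟩ : ∃ A, A = c * ρ ^ 2 * c3 ^ 2 / 2 := ⟨_, rfl⟩
  have hA0 : 0 < A := by rw [hA]; positivity
  obtain ⟨a, ha1, ha2, ha3, ha4, ha5, ha6⟩ : ∃ a : ℝ, 1 ≤ a ∧ 3 ≤ η * a ∧
      α * Real.log (12 * D) ≤ κ * a ∧ Real.exp y0 ≤ c3 * a ∧ T ≤ β * a ∧ 10 * D + 1 ≤ A * a := by
    have e : ∀ {p : ℝ} (q : ℝ), 0 < p → ∀ᶠ a : ℝ in atTop, q ≤ p * a := fun q hp =>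
      (tendsto_id.const_mul_atTop hp).eventually_ge_atTop q
    exact ((eventually_ge_atTop 1).and ((e _ hη0).and ((e _ hκ0).and ((e _ hc30).and
      ((e _ hβ0).and (e _ hA0)))))).exists
  obtain ⟨ε, hε1, hε2⟩ := hy0 (Real.log (c3 * a))
    ((Real.le_log_iff_exp_le (by positivity)).2 ha4)
  set y : ℕ → ℝ := fun k => a * b ^ k with hy
  have hbk : ∀ k : ℕ, 1 ≤ b ^ k := fun k => one_le_pow₀ hb1.le
  have hya : ∀ k, a ≤ y k := fun k => le_mul_of_one_le_right (by linarith) (hbk k)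
  have hys : ∀ k, y (k + 1) = y k * b := fun k => by simp only [hy]; ring
  have hM1 : ∀ k, Real.exp (y k) ≤ (⌈Real.exp (y k)⌉₊ : ℝ) := fun k => Nat.le_ceil _
  have hM2 : ∀ k, (⌈Real.exp (y k)⌉₊ : ℝ) ≤ 2 * Real.exp (y k) := fun k => by
    have h1 := Nat.ceil_lt_add_one (Real.exp_pos (y k)).le
    have h2 : 1 ≤ Real.exp (y k) := Real.one_le_exp (by linarith [hya k])
    linarith
  have hwT : ∀ k, T ≤ Real.exp (β * y k) := fun k => by
    have h1 := Real.add_one_le_exp (β * y k)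
    have h2 : β * a ≤ β * y k := by gcongr; exact hya k
    linarith
  have hwk : ∀ k, c * Real.exp (-(β * s' * y k)) ≤ μW.real (Ici (Real.exp (β * y k))) := fun k => by
    have := hT _ (hwT k)
    rwa [← Real.exp_mul, show β * y k * -s' = -(β * s' * y k) by ring] at this
  refine ⟨fun k => ⌈Real.exp (y k)⌉₊, fun k => Real.exp (β * y k), ε, fun k => ?_, fun k => ?_,
    fun k => (Real.exp_pos _).le, fun k => ?_, hε1, ?_, fun k => ?_⟩
  · exact Nat.ceil_pos.2 (Real.exp_pos _)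
  · have h1 : (8 : ℝ) ≤ Real.exp 3 := by
      have := Real.quadratic_le_exp_of_nonneg (x := 3) (by norm_num); linarith
    have h2 : y k + 3 ≤ y (k + 1) := by
      rw [hys, hb]; nlinarith [hya k]
    have h3 : Real.exp (y k) * 8 ≤ Real.exp (y (k + 1)) :=
      calc Real.exp (y k) * 8 ≤ Real.exp (y k) * Real.exp 3 := by gcongr
        _ = Real.exp (y k + 3) := (Real.exp_add _ _).symm
        _ ≤ _ := Real.exp_le_exp.2 h2
    have h4 : (4 : ℝ) * (⌈Real.exp (y k)⌉₊ : ℝ) ≤ (⌈Real.exp (y (k + 1))⌉₊ : ℝ) := by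
      linarith [hM1 (k + 1), hM2 k]
    exact_mod_cast h4
  · calc (6 * D * (⌈Real.exp (y (k + 1))⌉₊ : ℝ)) ^ α
        ≤ (Real.exp (Real.log (12 * D) + y (k + 1))) ^ α := by
          refine Real.rpow_le_rpow (by positivity) ?_ hα0.le
          rw [Real.exp_add, Real.exp_log (by positivity)]
          nlinarith [hM2 (k + 1)]
      _ ≤ _ := by
          rw [← Real.exp_mul, ← Real.exp_add, Real.exp_le_exp, hys]
          have : κ * a ≤ κ * y k := by gcongr; exact hya k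
          rw [hκ] at this ha3
          nlinarith
  · exact lt_of_lt_of_le (by positivity) (hwk 0)
  · set z := y (k + 1) with hz
    have hza : a ≤ z := hya _
    have h1 : Real.exp (D * z) ≤ (⌈Real.exp z⌉₊ : ℝ) ^ d := by
      rw [hDdef, Real.exp_nat_mul]
      exact pow_le_pow_left₀ (Real.exp_pos _).le (hM1 _) _
    have h2 : Real.exp (-(c3 * z)) ≤ μL.real (Iic (ε k)) := by
      have := hε2 k
      rw [Real.exp_add, Real.exp_log (by positivity), show ((k : ℝ) + 1) = ((k + 1 : ℕ) : ℝ) by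
        push_cast; ring, Real.exp_nat_mul, Real.exp_log (by linarith)] at this
      rwa [hz, hy, ← mul_assoc]
    have h3 : c * ρ ^ 2 * Real.exp (c3 * z) ≤ (⌈Real.exp z⌉₊ : ℝ) ^ d *
        (μW.real (Ici (Real.exp (β * z))) * (ρ * μL.real (Iic (ε k))) ^ 2) := by
      calc c * ρ ^ 2 * Real.exp (c3 * z) = Real.exp (D * z) *
            ((c * Real.exp (-(β * s' * z))) * (ρ * Real.exp (-(c3 * z))) ^ 2) := by
            have : Real.exp (c3 * z) = Real.exp (D * z) * Real.exp (-(β * s' * z)) *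
                (Real.exp (-(c3 * z)) * Real.exp (-(c3 * z))) := by
              rw [← Real.exp_add, ← Real.exp_add, ← Real.exp_add]; congr 1; rw [hc3]; ring
            rw [this]; ring
        _ ≤ _ := by gcongr; exact hwk _
    have h4 : (16 * (⌈Real.exp (y k)⌉₊ : ℝ) + 1) ^ (2 * d) ≤ Real.exp (2 * D * (4 + z)) := by
      rw [hDdef, show 2 * (d : ℝ) = ((2 * d : ℕ) : ℝ) by push_cast; ring, Real.exp_nat_mul]
      refine pow_le_pow_left₀ (by positivity) ?_ _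
      have e1 : (33 : ℝ) ≤ Real.exp 4 := by
        have := Real.sum_le_exp_of_nonneg (x := 4) (by norm_num) 5
        simp [Finset.sum_range_succ, Nat.factorial] at this; linarith
      have e2 : Real.exp (y k) ≤ Real.exp z := by
        rw [Real.exp_le_exp, hz, hys]; nlinarith [hya k]
      have e3 : 1 ≤ Real.exp z := Real.one_le_exp (by linarith)
      rw [Real.exp_add]
      nlinarith [hM2 k]
    have h5 : 2 * D * (4 + z) + z ≤ c * ρ ^ 2 * Real.exp (c3 * z) := by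
      have e1 := Real.quadratic_le_exp_of_nonneg (x := c3 * z) (by nlinarith)
      have e2 : A * z ^ 2 ≤ c * ρ ^ 2 * Real.exp (c3 * z) := by
        rw [hA]
        have : (c3 * z) ^ 2 / 2 ≤ Real.exp (c3 * z) := by nlinarith
        calc c * ρ ^ 2 * c3 ^ 2 / 2 * z ^ 2 = c * ρ ^ 2 * ((c3 * z) ^ 2 / 2) := by ring
          _ ≤ _ := by gcongr
      have e3 : 10 * D + 1 ≤ A * z := le_trans ha6 (by gcongr)
      nlinarith
    have h6 : ((k + 2 : ℕ) : ℝ) ≤ z := by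
      have e1 : 1 + ((k + 1 : ℕ) : ℝ) * η ≤ b ^ (k + 1) := by
        rw [hb]; exact one_add_mul_le_pow (by linarith) _
      have e2 : a * (1 + ((k + 1 : ℕ) : ℝ) * η) ≤ z := by
        rw [hz]; exact mul_le_mul_of_nonneg_left e1 (by linarith)
      push_cast at e2 ⊢
      have : (0 : ℝ) ≤ k := Nat.cast_nonneg k
      nlinarith
    calc _ ≤ Real.exp (2 * D * (4 + z)) * Real.exp (-(c * ρ ^ 2 * Real.exp (c3 * z))) := by
          gcongr
      _ ≤ Real.exp (((k + 2 : ℕ) : ℝ) * (-1)) := by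
          rw [← Real.exp_add, Real.exp_le_exp]; linarith
      _ ≤ (1 / 2) ^ (k + 2) := by
          rw [Real.exp_nat_mul]
          refine pow_le_pow_left₀ (Real.exp_pos _).le ?_ _
          rw [Real.exp_neg, one_div]
          exact inv_anti₀ (by norm_num) (by linarith [Real.add_one_le_exp 1])

end Pool.Agent.H998Z.SFP
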