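import Pool.Agent.H998Z.SFP.Model
import Pool.Agent.H998Z.SFP.Param

/-! Chains of hubs, the exit argument and the main theorem. -/

namespace Pool.Agent.H998Z.SFP

open MeasureTheory Set Sum Filter Topology
open scoped ENNReal

variable {d : ℕ} {α lam : ℝ}

/-- box of radius `n` -/
noncomputable def Box (d n : ℕ) : Finset (Vx d) := Fintype.piFinset fun _ => Finset.Icc (-(n : ℤ)) n

lemma mem_Box {n : ℕ} {v : Vx d} : v ∈ Box d n ↔ ∀ i, |v i| ≤ n := by
  simp [Box, abs_le]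

lemma card_Box (n : ℕ) : (Box d n).card = (2 * n + 1) ^ d := by
  rw [Box, Fintype.card_piFinset]
  simp only [Int.card_Icc, Finset.prod_const, Finset.card_univ, Fintype.card_fin]
  congr 1; omega

lemma ev_Box (v : Vx d) : ∀ᶠ n : ℕ in atTop, ∀ i, |v i| ≤ n := by
  refine eventually_all.2 fun i => ?_
  filter_upwards [eventually_ge_atTop (v i).natAbs] with n hn
  rw [← Int.natCast_natAbs]; exact_mod_cast hn

/-- candidates at scale `M` around `u` in direction `σ` -/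
noncomputable def Cs (M : ℕ) (u : Vx d) (σ : ℤ) : Finset (Vx d) :=
  (Fintype.piFinset fun _ => Finset.Ico (M : ℤ) (2 * M)).image fun b i => u i + σ * (2 * b i + 1)

lemma mem_Cs {M : ℕ} {u m : Vx d} {σ : ℤ} (h : m ∈ Cs M u σ) (i : Fin d) :
    ∃ b : ℤ, M ≤ b ∧ b < 2 * M ∧ m i = u i + σ * (2 * b + 1) := by
  obtain ⟨b, hb, rfl⟩ := Finset.mem_image.1 h
  have := Finset.mem_Ico.1 (Fintype.mem_piFinset.1 hb i)
  exact ⟨b i, this.1, this.2, rfl⟩

lemma card_Cs (M : ℕ) (u : Vx d) {σ : ℤ} (hσ : σ = 1 ∨ σ = -1) : (Cs M u σ).card = M ^ d := by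
  rw [Cs, Finset.card_image_of_injective, Fintype.card_piFinset]
  · simp only [Int.card_Ico, Finset.prod_const, Finset.card_univ, Fintype.card_fin]
    congr 1; omega
  · intro b b' h
    funext i
    have := congrFun h i
    simp only at this
    rcases hσ with rfl | rfl <;> omega

/-- the data of the scales -/
structure Sc (d : ℕ) (α lam : ℝ) (μW μL : Measure ℝ) (δ : ℝ≥0∞) where
  M : ℕ → ℕ
  w : ℕ → ℝ
  ε : ℕ → ℝ
  h1 : ∀ k, 1 ≤ M k
  h2 : ∀ k, 4 * M k ≤ M (k + 1)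
  h3 : ∀ k, 0 ≤ w k
  h4 : ∀ k, (6 * d * M (k + 1) : ℝ) ^ α ≤ w k * w (k + 1)
  h5 : ∑' k, ENNReal.ofReal (ε k) ≤ δ
  h6 : 0 < μW.real (Ici (w 0))
  h7 : ∀ k, (16 * M k + 1 : ℝ) ^ (2 * d) * Real.exp (-((M (k + 1) : ℝ) ^ d *
    (μW.real (Ici (w (k + 1))) * ((1 - Real.exp (-lam)) * μL.real (Iic (ε k))) ^ 2))) ≤
      (1 / 2) ^ (k + 2)

variable {μW μL : Measure ℝ} {δ : ℝ≥0∞} (S : Sc d α lam μW μL δ)

/-- `u` is close to hubs of every scale -/
def Good (u : Vx d) : Set (Ix d → ℝ) :=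
  {ω | ∀ k, ∃ m : Vx d, (∀ i, |m i - u i| ≤ (4 * S.M k : ℕ)) ∧ S.w k ≤ ω (inl m) ∧
    dd α lam ω u m ≤ δ}

/-- every candidate has a successor -/
def Ch (u : Vx d) (σ : ℤ) : Set (Ix d → ℝ) :=
  ⋂ k, ⋂ p ∈ insert u (Cs (S.M k) u σ),
    Hev (Cs (S.M (k + 1)) u σ) (S.w (k + 1)) (1 - Real.exp (-lam)) (S.ε k) p p

/-- all pairs of a box have a common favourable hub -/
def Hub (k : ℕ) : Set (Ix d → ℝ) :=
  ⋂ p ∈ Box d (8 * S.M k), ⋂ q ∈ Box d (8 * S.M k),
    Hev (Cs (S.M (k + 1)) 0 1) (S.w (k + 1)) (1 - Real.exp (-lam)) (S.ε k) p q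

lemma meas_Good (u : Vx d) : MeasurableSet (Good S u) := by
  unfold Good
  rw [ofPred_forall]
  refine MeasurableSet.iInter fun k => ?_
  rw [ofPred_exists]
  exact MeasurableSet.iUnion fun m => (MeasurableSet.const _).inter
    ((measurableSet_le measurable_const (measurable_pi_apply _)).inter
      (measurableSet_le (meas_dd u m) measurable_const))

lemma meas_Ch (u : Vx d) (σ : ℤ) : MeasurableSet (Ch S u σ) :=
  MeasurableSet.iInter fun _ => Finset.measurableSet_biInter _ fun _ _ => meas_H _ _ _ _ _ _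

lemma src_near {u p : Vx d} {σ : ℤ} (hσ : σ = 1 ∨ σ = -1) {M : ℕ}
    (hp : p ∈ insert u (Cs M u σ)) (i : Fin d) : |p i - u i| ≤ (4 * M : ℕ) := by
  rcases Finset.mem_insert.1 hp with rfl | hp
  · simp
  · obtain ⟨b, h1, h2, h3⟩ := mem_Cs hp i
    rw [abs_le]; rcases hσ with rfl | rfl <;> constructor <;> push_cast <;> omega

lemma src_notMem (hd : 1 ≤ d) {u p : Vx d} {σ : ℤ} (hσ : σ = 1 ∨ σ = -1) (k : ℕ)
    (hp : p ∈ insert u (Cs (S.M k) u σ)) : p ∉ Cs (S.M (k + 1)) u σ := by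
  intro h
  obtain ⟨b, h1, h2, h3⟩ := mem_Cs h ⟨0, hd⟩
  have h4 := abs_le.1 (src_near hσ hp ⟨0, hd⟩)
  have h5 := S.h2 k
  push_cast at h4
  rcases hσ with rfl | rfl <;> omega

lemma good_of_ch (hd : 1 ≤ d) (hα : 0 < α) (hlam : 0 < lam) {u : Vx d} {σ : ℤ}
    (hσ : σ = 1 ∨ σ = -1) {ω : Ix d → ℝ} (hu : S.w 0 ≤ ω (inl u)) (h : ω ∈ Ch S u σ) :
    ω ∈ Good S u := by
  have key : ∀ k, ∃ m ∈ insert u (Cs (S.M k) u σ), S.w k ≤ ω (inl m) ∧
      dd α lam ω u m ≤ ∑ j ∈ Finset.range k, ENNReal.ofReal (S.ε j) := by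
    intro k
    induction k with
    | zero => exact ⟨u, by simp, hu, by simp [dd, wdist_self]⟩
    | succ k ih =>
      obtain ⟨p, hp, hw, hdist⟩ := ih
      simp only [Ch, mem_iInter] at h
      obtain ⟨m, hm, ⟨a1, a2, a3⟩, -⟩ := h k p hp
      refine ⟨m, Finset.mem_insert_of_mem hm, a1, ?_⟩
      rw [Finset.sum_range_succ]
      refine (wdist_triangle _ _ u p m).trans (add_le_add hdist ?_)
      refine dd_le_of hd hα hlam (fun e : p = m => src_notMem S hd hσ k hp (e ▸ hm)) (M := S.M (k + 1))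
        (fun i => ?_) (S.h3 _) (S.h4 k) hw a1 a2 a3
      have b1 := abs_le.1 (src_near hσ hp i)
      have b2 := abs_le.1 (src_near hσ (Finset.mem_insert_of_mem hm) i)
      have h5 := S.h2 k
      rw [abs_le]; push_cast at b1 b2 ⊢; omega
  intro k
  obtain ⟨m, hm, h1, h2⟩ := key k
  exact ⟨m, src_near hσ hm, h1, h2.trans ((ENNReal.sum_le_tsum _).trans S.h5)⟩

lemma hub_notMem (hd : 1 ≤ d) (k : ℕ) {p : Vx d} (hp : p ∈ Box d (8 * S.M k)) :
    p ∉ Cs (S.M (k + 1)) 0 1 := by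
  intro h
  obtain ⟨b, h1, h2, h3⟩ := mem_Cs h ⟨0, hd⟩
  have h4 := abs_le.1 (mem_Box.1 hp ⟨0, hd⟩)
  have h5 := S.h2 k
  simp only [Pi.zero_apply] at h3
  push_cast at h4
  omega

lemma close_of_good (hd : 1 ≤ d) (hα : 0 < α) (hlam : 0 < lam) {ω : Ix d → ℝ}
    (hH : ∀ᶠ k in atTop, ω ∈ Hub S k) {u v : Vx d} (hu : ω ∈ Good S u) (hv : ω ∈ Good S v) :
    dd α lam ω u v ≤ 4 * δ := by
  have hM : ∀ k, k ≤ S.M k := by
    intro k
    induction k with
    | zero => exact Nat.zero_le _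
    | succ k ih => have := S.h2 k; have := S.h1 k; omega
  have hT : Tendsto S.M atTop atTop := tendsto_atTop_mono hM tendsto_id
  obtain ⟨k, hk, hu', hv'⟩ := (hH.and ((hT.eventually (ev_Box u)).and
    (hT.eventually (ev_Box v)))).exists
  obtain ⟨p, p1, p2, p3⟩ := hu k
  obtain ⟨q, q1, q2, q3⟩ := hv k
  have box : ∀ a b : Vx d, (∀ i, |a i - b i| ≤ (4 * S.M k : ℕ)) → (∀ i, |b i| ≤ S.M k) →
      a ∈ Box d (8 * S.M k) := fun a b h1 h2 => mem_Box.2 fun i => by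
    have b1 := abs_le.1 (h1 i)
    have b2 := abs_le.1 (h2 i)
    rw [abs_le]; push_cast at b1 ⊢; omega
  have hp := box p u p1 hu'
  have hq := box q v q1 hv'
  simp only [Hub, mem_iInter] at hk
  obtain ⟨m, hm, ⟨a1, a2, a3⟩, a4, a5⟩ := hk p hp q hq
  have near : ∀ a ∈ Box d (8 * S.M k), ∀ i, |a i - m i| ≤ (6 * S.M (k + 1) : ℕ) := fun a ha i => by
    obtain ⟨b, h1, h2, h3⟩ := mem_Cs hm i
    have h4 := abs_le.1 (mem_Box.1 ha i)
    have h5 := S.h2 k
    simp only [Pi.zero_apply] at h3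
    rw [abs_le]; push_cast at h4 ⊢; omega
  have hε : ENNReal.ofReal (S.ε k) ≤ δ := (ENNReal.le_tsum k).trans S.h5
  have d1 := (dd_le_of hd hα hlam (fun e : p = m => hub_notMem S hd k hp (e ▸ hm)) (near p hp) (S.h3 _)
    (S.h4 k) p2 a1 a2 a3).trans hε
  have d2 := (dd_le_of hd hα hlam (fun e : q = m => hub_notMem S hd k hq (e ▸ hm)) (near q hq) (S.h3 _)
    (S.h4 k) q2 a1 a4 a5).trans hε
  unfold dd at *
  rw [wdist_comm] at d2 q3
  calc _ ≤ _ := wdist_triangle _ _ u p v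
    _ ≤ δ + (δ + (δ + δ)) := add_le_add p3 ((wdist_triangle _ _ p m v).trans (add_le_add d1
        ((wdist_triangle _ _ m q v).trans (add_le_add d2 q3))))
    _ = 4 * δ := by ring

section Prob

variable (ν : Ix d → Measure ℝ) [∀ i, IsProbabilityMeasure (ν i)]
  (hW : ∀ v, ν (inl v) = μW) (hL : ∀ e, ν (inr (inr e)) = μL)
  (hE : ∀ e, (ν (inr (inl e))).real (Iic (1 - Real.exp (-lam))) = 1 - Real.exp (-lam))

include hW hL hE

lemma union_bound (hlam : 0 < lam) (k : ℕ) {T : Type} (F : Finset T) (f g : T → Vx d)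
    (hF : F.card ≤ (16 * S.M k + 1) ^ (2 * d)) {u : Vx d} {σ : ℤ} (hσ : σ = 1 ∨ σ = -1)
    (hf : ∀ a ∈ F, f a ∉ Cs (S.M (k + 1)) u σ) (hg : ∀ a ∈ F, g a ∉ Cs (S.M (k + 1)) u σ) :
    Measure.infinitePi ν (⋃ a ∈ F, (Hev (Cs (S.M (k + 1)) u σ) (S.w (k + 1))
      (1 - Real.exp (-lam)) (S.ε k) (f a) (g a))ᶜ) ≤ ENNReal.ofReal ((1 / 2) ^ (k + 2)) := by
  have hρ : 0 ≤ 1 - Real.exp (-lam) := by
    have := Real.exp_le_one_iff.2 (show -lam ≤ 0 by linarith); linarith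
  refine (measure_biUnion_finset_le _ _).trans ?_
  refine (Finset.sum_le_sum fun a ha => prob_not_H ν hW hL hρ hE _ _ _ (hf a ha) (hg a ha)).trans ?_
  rw [Finset.sum_const, nsmul_eq_mul, ← ENNReal.ofReal_natCast,
    ← ENNReal.ofReal_mul (Nat.cast_nonneg _), card_Cs _ _ hσ]
  refine ENNReal.ofReal_le_ofReal (le_trans ?_ (S.h7 k))
  push_cast
  gcongr
  exact_mod_cast hF

omit hW hL hE in
lemma geo_sum : ∑' k : ℕ, ENNReal.ofReal ((1 / 2) ^ (k + 2)) = 1 / 2 := by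
  rw [← ENNReal.ofReal_tsum_of_nonneg (fun _ => by positivity)
    ((summable_nat_add_iff 2).2 summable_geometric_two)]
  simp_rw [pow_add]
  rw [tsum_mul_right, tsum_geometric_two, show (2 : ℝ) * (1 / 2) ^ 2 = 1 / 2 by norm_num,
    ENNReal.ofReal_div_of_pos (by norm_num)]
  simp

lemma prob_Ch (hd : 1 ≤ d) (hlam : 0 < lam) (u : Vx d) {σ : ℤ} (hσ : σ = 1 ∨ σ = -1) :
    1 / 2 ≤ Measure.infinitePi ν (Ch S u σ) := by
  have h : Measure.infinitePi ν (Ch S u σ)ᶜ ≤ 1 / 2 := by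
    unfold Ch
    rw [compl_iInter, ← geo_sum]
    refine (measure_iUnion_le _).trans (ENNReal.tsum_le_tsum fun k => ?_)
    rw [compl_iInter₂]
    refine union_bound S ν hW hL hE hlam k _ id id ?_ hσ (fun a ha => src_notMem S hd hσ k ha)
      (fun a ha => src_notMem S hd hσ k ha)
    refine (Finset.card_insert_le _ _).trans ?_
    rw [card_Cs _ _ hσ]
    calc S.M k ^ d + 1 ≤ (16 * S.M k + 1) ^ d :=
          Nat.pow_lt_pow_left (by omega) (by omega)
      _ ≤ _ := Nat.pow_le_pow_right (by omega) (by omega)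
  rw [prob_compl_eq_one_sub (meas_Ch S u σ), tsub_le_iff_left, ← tsub_le_iff_right] at h
  rwa [ENNReal.sub_half ENNReal.one_ne_top] at h

lemma ae_Hub (hd : 1 ≤ d) (hlam : 0 < lam) :
    ∀ᵐ ω ∂(Measure.infinitePi ν), ∀ᶠ k in atTop, ω ∈ Hub S k := by
  have h : ∑' k, Measure.infinitePi ν (Hub S k)ᶜ ≠ ⊤ := by
    refine ne_top_of_le_ne_top (b := 1 / 2) (by simp) ?_
    rw [← geo_sum]
    refine ENNReal.tsum_le_tsum fun k => ?_
    refine le_trans (measure_mono ?_) (union_bound S ν hW hL hE hlam k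
      (Box d (8 * S.M k) ×ˢ Box d (8 * S.M k)) Prod.fst Prod.snd ?_ (u := 0) (Or.inl rfl)
      (fun a ha => hub_notMem S hd k (Finset.mem_product.1 ha).1)
      (fun a ha => hub_notMem S hd k (Finset.mem_product.1 ha).2))
    · intro ω hω
      simp only [Hub, mem_compl_iff, mem_iInter, not_forall] at hω
      obtain ⟨p, hp, q, hq, h⟩ := hω
      exact mem_biUnion (Finset.mem_coe.2 (Finset.mem_product.2 ⟨hp, hq⟩ :
        (p, q) ∈ Box d (8 * S.M k) ×ˢ Box d (8 * S.M k))) h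
    · rw [Finset.card_product, card_Box, ← pow_add, ← two_mul]
      exact le_of_eq (by ring_nf)
  filter_upwards [ae_eventually_notMem h] with ω hω
  simpa using hω

lemma exit_step (hd : 1 ≤ d) (hα : 0 < α) (hlam : 0 < lam) (n : ℕ) {x : Vx d} (hx : x ∈ Box d n)
    (t : ℝ≥0∞) (j : ℤ) {D : Set (Ix d → ℝ)} (mD : MeasurableSet D)
    (hD : Dep (Jc (Box d n : Set (Vx d)) ∅) D) :
    μW (Ici (S.w 0)) * (1 / 2) * Measure.infinitePi ν (D ∩ {ω | ∃ u, u ⟨0, hd⟩ % 2 = j ∧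
      u ∉ Box d n ∧ ω ∈ Tev α lam (Box d n : Set (Vx d)) x t u}) ≤
    Measure.infinitePi ν (D ∩ {ω | ∃ u, dd α lam ω x u < t ∧ ω ∈ Good S u}) := by
  classical
  set μ := Measure.infinitePi ν with hμ
  set Λ : Set (Vx d) := (Box d n : Set (Vx d)) with hΛ
  set A : Set (Vx d) := {u | u ⟨0, hd⟩ % 2 = j} with hA
  obtain ⟨enc, henc⟩ := Countable.exists_injective_nat (Vx d)
  set T := Tev α lam Λ x t with hT
  set F : Vx d → Set (Ix d → ℝ) := fun u => {ω | ω ∈ D ∧ (u ∈ A ∧ u ∉ Λ) ∧ ω ∈ T u ∧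
    ∀ u', (u' ∈ A ∧ u' ∉ Λ ∧ enc u' < enc u) → ω ∉ T u'} with hF
  set sg : Vx d → ℤ := fun u => if ∃ i, (n : ℤ) < u i then 1 else -1 with hsg
  have hσ : ∀ u, sg u = 1 ∨ sg u = -1 := fun u => by
    simp only [hsg]; split_ifs <;> simp
  have mT : ∀ u, MeasurableSet (T u) := meas_T Λ x t
  have mF : ∀ u, MeasurableSet (F u) := fun u => by
    refine mD.inter ((MeasurableSet.const _).inter ((mT u).inter ?_))
    change MeasurableSet {ω | ∀ u', (u' ∈ A ∧ u' ∉ Λ ∧ enc u' < enc u) → ω ∉ T u'}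
    rw [ofPred_forall]
    refine MeasurableSet.iInter fun u' => ?_
    rw [ofPred_forall]
    exact MeasurableSet.iInter fun _ => (mT u').compl
  have dF : Pairwise (Function.onFun Disjoint F) := by
    intro u v huv
    refine Set.disjoint_left.2 fun ω h1 h2 => ?_
    rcases lt_or_gt_of_ne (henc.ne huv) with h | h
    · exact h2.2.2.2 u ⟨h1.2.1.1, h1.2.1.2, h⟩ h1.2.2.1
    · exact h1.2.2.2 v ⟨h2.2.1.1, h2.2.1.2, h⟩ h2.2.2.1
  have cover : D ∩ {ω | ∃ u, u ⟨0, hd⟩ % 2 = j ∧ u ∉ Box d n ∧ ω ∈ T u} ⊆ ⋃ u, F u := by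
    rintro ω ⟨hω, u0, h0⟩
    obtain ⟨u, hu, hmin⟩ := (InvImage.wf enc Nat.lt_wfRel.wf).has_min
      {u | u ∈ A ∧ u ∉ Λ ∧ ω ∈ T u} ⟨u0, h0⟩
    exact mem_iUnion.2 ⟨u, hω, ⟨hu.1, hu.2.1⟩, hu.2.2, fun u' h' hT' =>
      hmin u' ⟨h'.1, h'.2.1, hT'⟩ h'.2.2⟩
  have sub0 : Jc Λ ∅ ⊆ Jc Λ A := by
    rintro (v | e | e) h
    · exact Or.inl (h.resolve_right (notMem_empty _))
    · exact h
    · exact h
  have upF : ∀ u, ∀ ω ∈ F u, ∀ ω' : Ix d → ℝ, (∀ i ∈ Jc Λ A, i ≠ inl u → ω i = ω' i) →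
      ω (inl u) ≤ ω' (inl u) → ω' ∈ F u := by
    intro u ω hω ω' e hle
    have e0 : ∀ i ∈ Jc Λ ∅, ω i = ω' i := fun i hi => e i (sub0 hi) (by
      rintro rfl; exact hω.2.1.2 (hi.resolve_right (notMem_empty _)))
    refine ⟨hD ω ω' e0 hω.1, hω.2.1, T_mono hlam hx e0 hle hω.2.2.1, fun u' h' hT' => ?_⟩
    refine hω.2.2.2 u' h' (T_mono hlam hx (fun i hi => (e0 i hi).symm) (le_of_eq ?_) hT')
    refine (e _ (Or.inr h'.1) ?_).symm
    intro h
    have := h'.2.2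
    rw [inl.inj h] at this
    exact lt_irrefl _ this
  set G : Vx d → Set (Ix d → ℝ) := fun u => (F u ∩ {ω | S.w 0 ≤ ω (inl u)}) ∩ Ch S u (sg u)
    with hG
  have mK : ∀ u, MeasurableSet {ω : Ix d → ℝ | S.w 0 ≤ ω (inl u)} := fun u =>
    measurableSet_le measurable_const (measurable_pi_apply _)
  have mG : ∀ u, MeasurableSet (G u) := fun u => ((mF u).inter (mK u)).inter (meas_Ch S _ _)
  have key : ∀ u, μW (Ici (S.w 0)) * (1 / 2) * μ (F u) ≤ μ (G u) := by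
    intro u
    by_cases hu : u ∈ A ∧ u ∉ Λ
    swap
    · have : F u = ∅ := eq_empty_of_forall_notMem fun ω h => hu h.2.1
      simp [this]
    have out : ∀ M : ℕ, ∀ m ∈ Cs M u (sg u), m ∉ Λ ∧ m ∉ A := by
      intro M m hm
      constructor
      · intro h
        have h' := mem_Box.1 h
        by_cases hs : ∃ i, (n : ℤ) < u i
        · obtain ⟨i, hi⟩ := hs
          obtain ⟨b, h1, h2, h3⟩ := mem_Cs hm i
          have := abs_le.1 (h' i)
          simp only [hsg, if_pos (⟨i, hi⟩ : ∃ i, (n : ℤ) < u i)] at h3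
          omega
        · have : ¬ ∀ i, |u i| ≤ n := fun h => hu.2 (mem_Box.2 h)
          obtain ⟨i, hi⟩ := not_forall.1 this
          obtain ⟨b, h1, h2, h3⟩ := mem_Cs hm i
          have := abs_le.1 (h' i)
          have h4 : ¬ (n : ℤ) < u i := fun h => hs ⟨i, h⟩
          simp only [hsg, if_neg hs] at h3
          rw [abs_le] at hi
          omega
      · intro h
        obtain ⟨b, h1, h2, h3⟩ := mem_Cs hm ⟨0, hd⟩
        have a1 : m ⟨0, hd⟩ % 2 = j := h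
        have a2 : u ⟨0, hd⟩ % 2 = j := hu.1
        rcases hσ u with h | h <;> rw [h] at h3 <;> omega
    have dC : Dep (Jc Λ A)ᶜ (Ch S u (sg u)) := by
      intro ω ω' e h
      simp only [Ch, mem_iInter] at h ⊢
      intro k p hp
      obtain ⟨m, hm, ⟨a1, a2, a3⟩, -⟩ := h k p hp
      have hp' : p ∉ Λ := by
        rcases Finset.mem_insert.1 hp with rfl | hp
        · exact hu.2
        · exact (out _ _ hp).1
      have hm' := out _ _ hm
      have ne : ¬ ∃ z ∈ Λ, z ∈ s(p, m) := by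
        rintro ⟨z, hz, hz'⟩
        rcases Sym2.mem_iff.1 hz' with rfl | rfl
        · exact hp' hz
        · exact hm'.1 hz
      rw [e (inl m) (fun h => h.elim hm'.1 hm'.2)] at a1
      rw [e (inr (inl s(p, m))) ne] at a2
      rw [e (inr (inr s(p, m))) ne] at a3
      exact ⟨m, hm, ⟨a1, a2, a3⟩, a2, a3⟩
    have dK : Dep (Jc Λ A) (F u ∩ {ω | S.w 0 ≤ ω (inl u)}) := by
      intro ω ω' e h
      have e1 := e (inl u) (Or.inr hu.1)
      exact ⟨upF u ω h.1 ω' (fun i hi _ => e i hi) e1.le, le_trans h.2 e1.le⟩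
    have h1 := harris ν (inl u) (mF u)
      (fun ω hω ω' e hle => upF u ω hω ω' (fun i _ hi => e i hi) hle) (S.w 0)
    rw [hW] at h1
    simp only [hG, hμ]
    rw [indep ν ((mF u).inter (mK u)) (meas_Ch S _ _) dK dC, mul_right_comm]
    exact mul_le_mul' h1 (prob_Ch S ν hW hL hE hd hlam u (hσ u))
  calc _ ≤ μW (Ici (S.w 0)) * (1 / 2) * μ (⋃ u, F u) := by gcongr
    _ = ∑' u, μW (Ici (S.w 0)) * (1 / 2) * μ (F u) := by
        rw [measure_iUnion dF mF, ENNReal.tsum_mul_left]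
    _ ≤ ∑' u, μ (G u) := ENNReal.tsum_le_tsum key
    _ = μ (⋃ u, G u) := (measure_iUnion (fun u v huv => (dF huv).mono
        (fun ω h => h.1.1) (fun ω h => h.1.1)) mG).symm
    _ ≤ _ := by
        refine measure_mono (iUnion_subset fun u ω h => ?_)
        exact ⟨h.1.1.1, u, T_dist h.1.1.2.2.1, good_of_ch S hd hα hlam (hσ u) h.1.2 h.2⟩

lemma ae_exit (hd : 1 ≤ d) (hα : 0 < α) (hlam : 0 < lam) (x : Vx d) (t : ℝ≥0∞) :
    ∀ᵐ ω ∂(Measure.infinitePi ν), {y | dd α lam ω x y < t}.Infinite →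
      ∃ u, dd α lam ω x u < t ∧ ω ∈ Good S u := by
  set μ := Measure.infinitePi ν with hμ
  have hP : IsProbabilityMeasure μW := hW 0 ▸ inferInstance
  set Inf : Set (Ix d → ℝ) := {ω | ∀ n, ∃ y, y ∉ Box d n ∧ dd α lam ω x y < t} with hInf
  set Succ : Set (Ix d → ℝ) := {ω | ∃ u, dd α lam ω x u < t ∧ ω ∈ Good S u} with hSucc
  have mI : MeasurableSet Inf := by
    rw [hInf, ofPred_forall]
    refine MeasurableSet.iInter fun n => ?_
    rw [ofPred_exists]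
    exact MeasurableSet.iUnion fun y => (MeasurableSet.const _).inter
      (measurableSet_lt (meas_dd x y) measurable_const)
  have mS : MeasurableSet Succ := by
    rw [hSucc, ofPred_exists]
    exact MeasurableSet.iUnion fun y => (measurableSet_lt (meas_dd x y) measurable_const).inter
      (meas_Good S y)
  have hκ : μW (Ici (S.w 0)) ≠ 0 := by
    intro h
    have := S.h6
    rw [Measure.real, h] at this
    simp at this
  have h0 := null_of_cyl ν mI mS (c := μW (Ici (S.w 0)) * (1 / 2) * (1 / 2)) (by simp [hκ])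
    (by finiteness) ?_
  · have : ∀ᵐ ω ∂μ, ω ∉ Inf \ Succ := measure_eq_zero_iff_ae_notMem.1 h0
    filter_upwards [this] with ω hω hinf
    by_contra hS
    refine hω ⟨fun n => ?_, hS⟩
    obtain ⟨y, hy, hy'⟩ := hinf.exists_notMem_finset (Box d n)
    exact ⟨y, hy', hy⟩
  intro s D mD hD
  have e1 : ∀ i : Ix d, ∀ᶠ n : ℕ in atTop, i ∈ Jc (Box d n : Set (Vx d)) ∅ := by
    rintro (v | e | e)
    · filter_upwards [ev_Box v] with n hn
      exact Or.inl (mem_Box.2 hn)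
    · filter_upwards [ev_Box e.out.1] with n hn
      exact ⟨_, mem_Box.2 hn, Sym2.out_fst_mem e⟩
    · filter_upwards [ev_Box e.out.1] with n hn
      exact ⟨_, mem_Box.2 hn, Sym2.out_fst_mem e⟩
  obtain ⟨n, hn, hx⟩ := (((eventually_all_finset s).2 fun i _ => e1 i).and (ev_Box x)).exists
  have hx' := mem_Box.2 hx
  have hD' : Dep (Jc (Box d n : Set (Vx d)) ∅) D := hD.mono fun i hi => hn i hi
  have s0 := exit_step S ν hW hL hE hd hα hlam n hx' t 0 mD hD'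
  have s1 := exit_step S ν hW hL hE hd hα hlam n hx' t 1 mD hD'
  have hsub : D ∩ Inf ⊆ (D ∩ {ω | ∃ u, u ⟨0, hd⟩ % 2 = 0 ∧
      u ∉ Box d n ∧ ω ∈ Tev α lam (Box d n : Set (Vx d)) x t u}) ∪
      (D ∩ {ω | ∃ u, u ⟨0, hd⟩ % 2 = 1 ∧
      u ∉ Box d n ∧ ω ∈ Tev α lam (Box d n : Set (Vx d)) x t u}) := by
    rintro ω ⟨h1, h2⟩
    obtain ⟨y, hy, hy'⟩ := h2 n
    obtain ⟨u, hu, hT⟩ := exit_T (Λ := (Box d n : Set (Vx d))) hx' hy hy'
    rcases Int.emod_two_eq_zero_or_one (u ⟨0, hd⟩) with h | h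
    · exact Or.inl ⟨h1, u, h, hu, hT⟩
    · exact Or.inr ⟨h1, u, h, hu, hT⟩
  have h3 := (measure_mono (μ := μ) hsub).trans (measure_union_le _ _)
  have alg : ∀ c a b e f : ℝ≥0∞, e ≤ a + b → c * a ≤ f → c * b ≤ f → c * (1 / 2) * e ≤ f := by
    intro c a b e f h1 h2 h3
    calc c * (1 / 2) * e ≤ c * (1 / 2) * (a + b) := by gcongr
      _ = (1 / 2) * (c * a + c * b) := by ring
      _ ≤ (1 / 2) * (f + f) := by gcongr
      _ = f := by
        rw [← two_mul, ← mul_assoc, one_div, ENNReal.inv_mul_cancel (by simp) (by simp), one_mul]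
  exact alg _ _ _ _ _ h3 s0 s1

include S in
lemma ae_step (hd : 1 ≤ d) (hα : 0 < α) (hlam : 0 < lam) :
    ∀ᵐ ω ∂(Measure.infinitePi ν), ∀ x y, dd α lam ω x y ≤
      explosion (Gr α lam ω) (Lw ω) x + explosion (Gr α lam ω) (Lw ω) y + 4 * δ := by
  have h1 : ∀ᵐ ω ∂(Measure.infinitePi ν), ∀ (x : Vx d) (q : ℚ),
      {y | dd α lam ω x y < Real.toNNReal q}.Infinite →
      ∃ u, dd α lam ω x u < Real.toNNReal q ∧ ω ∈ Good S u :=
    ae_all_iff.2 fun x => ae_all_iff.2 fun q => ae_exit S ν hW hL hE hd hα hlam x _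
  filter_upwards [h1, ae_Hub S ν hW hL hE hd hlam] with ω h1 h2 x y
  have key : ∀ (z : Vx d) (t : ℝ≥0∞), explosion (Gr α lam ω) (Lw ω) z < t →
      ∃ u, dd α lam ω z u ≤ t ∧ ω ∈ Good S u := by
    intro z t ht
    obtain ⟨q, -, hq1, hq2⟩ := ENNReal.lt_iff_exists_rat_btwn.1 ht
    obtain ⟨u, hu, hg⟩ := h1 z q (infinite_of_lt _ _ hq1)
    exact ⟨u, (hu.trans hq2).le, hg⟩
  refine ENNReal.le_of_forall_pos_le_add fun η hη hlt => ?_
  have hx : explosion (Gr α lam ω) (Lw ω) x ≠ ⊤ := fun h => by simp [h] at hlt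
  have hy : explosion (Gr α lam ω) (Lw ω) y ≠ ⊤ := fun h => by simp [h] at hlt
  have hη2 : (η : ℝ≥0∞) / 2 ≠ 0 := by simp [hη.ne']
  obtain ⟨u, hu, gu⟩ := key x _ (ENNReal.lt_add_right hx hη2)
  obtain ⟨v, hv, gv⟩ := key y _ (ENNReal.lt_add_right hy hη2)
  have huv := close_of_good S hd hα hlam h2 gu gv
  unfold dd at *
  rw [wdist_comm] at hv
  refine ((wdist_triangle _ _ x u y).trans (add_le_add hu ((wdist_triangle _ _ u v y).trans
    (add_le_add huv hv)))).trans (le_of_eq ?_)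
  conv_rhs => rw [← ENNReal.add_halves (η : ℝ≥0∞)]
  ring

end Prob

theorem main {d : ℕ} (hd : 1 ≤ d) {α lam τ : ℝ} (hα : (d : ℝ) < α) (hlam : 0 < lam) (hτ : 1 < τ)
    (hγ : α * (τ - 1) / d < 2) {ℓ : ℝ → ℝ} (hℓ : SlowlyVarying ℓ) (μW μL : Measure ℝ)
    [pW : IsProbabilityMeasure μW] [pL : IsProbabilityMeasure μL]
    (hW1 : μW (Ici 1) = 1) (hW : ∀ t : ℝ, 1 ≤ t → μW.real (Ioi t) = ℓ t * t ^ (-(τ - 1)))
    (hL1 : μL (Ici 0) = 1)
    (hI : ∫⁻ y in Ioi (0 : ℝ), ENNReal.ofReal (genInv μL (Real.exp (-Real.exp y))) < ⊤)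
    {Ω : Type*} [MeasurableSpace Ω] (P : Measure Ω) [IsProbabilityMeasure P]
    (W : (Fin d → ℤ) → Ω → ℝ) (E L : Sym2 (Fin d → ℤ) → Ω → ℝ)
    (lawW : ∀ x, ProbabilityTheory.HasLaw (W x) μW P)
    (lawE : ∀ e, ProbabilityTheory.HasLaw (E e) (volume.restrict (Icc (0 : ℝ) 1)) P)
    (lawL : ∀ e, ProbabilityTheory.HasLaw (L e) μL P)
    (hind : ProbabilityTheory.iIndepFun (β := fun _ => ℝ) (Sum.elim W (Sum.elim E L)) P) :
    ∀ᵐ ω ∂P, ∀ x y : Fin d → ℤ,
      wdist (sfp α lam (fun v => W v ω) (fun e => E e ω)) (fun e => L e ω) x y ≤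
        explosion (sfp α lam (fun v => W v ω) (fun e => E e ω)) (fun e => L e ω) x +
        explosion (sfp α lam (fun v => W v ω) (fun e => E e ω)) (fun e => L e ω) y := by
  have hL0 : μL (Iio 0) = 0 := by
    rw [← compl_Ici, prob_compl_eq_zero_iff measurableSet_Ici, hL1]
  have pE : IsProbabilityMeasure (volume.restrict (Icc (0 : ℝ) 1)) := ⟨by simp⟩
  set ν : Ix d → Measure ℝ := Sum.elim (fun _ => μW)
    (Sum.elim (fun _ => volume.restrict (Icc (0 : ℝ) 1)) fun _ => μL) with hν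
  have pν : ∀ i, IsProbabilityMeasure (ν i) := by
    rintro (v | e | e)
    · exact pW
    · exact pE
    · exact pL
  set X : Ix d → Ω → ℝ := Sum.elim W (Sum.elim E L) with hX
  have lawX : ∀ i, ProbabilityTheory.HasLaw (X i) (ν i) P := by
    rintro (v | e | e)
    · exact lawW v
    · exact lawE e
    · exact lawL e
  have mX : AEMeasurable (fun ω i => X i ω) P :=
    aemeasurable_pi_iff.2 fun i => (lawX i).aemeasurable
  have law := hind.hasLaw_infinitePi lawX mX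
  have hα0 : 0 < α := lt_of_le_of_lt (Nat.cast_nonneg d) hα
  have hρ : 0 < 1 - Real.exp (-lam) := by
    have := Real.exp_lt_one_iff.2 (show -lam < 0 by linarith); linarith
  have hE : ∀ e, (ν (inr (inl e))).real (Iic (1 - Real.exp (-lam))) = 1 - Real.exp (-lam) := by
    intro e
    have : Iic (1 - Real.exp (-lam)) ∩ Icc (0 : ℝ) 1 = Icc 0 (1 - Real.exp (-lam)) := by
      ext z
      have := Real.exp_pos (-lam)
      simp only [mem_inter_iff, mem_Iic, mem_Icc]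
      constructor
      · exact fun h => ⟨h.2.1, h.1⟩
      · exact fun h => ⟨h.2, h.1, by linarith⟩
    simp only [hν, Sum.elim_inr, Sum.elim_inl, Measure.real]
    rw [Measure.restrict_apply measurableSet_Iic, this, Real.volume_Icc, sub_zero,
      ENNReal.toReal_ofReal hρ.le]
  have h1 : ∀ᵐ ω ∂(Measure.infinitePi ν), ∀ n : ℕ, ∀ x y, dd α lam ω x y ≤
      explosion (Gr α lam ω) (Lw ω) x + explosion (Gr α lam ω) (Lw ω) y + 4 * (n : ℝ≥0∞)⁻¹ := by
    refine ae_all_iff.2 fun n => ?_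
    obtain ⟨M, w, ε, a1, a2, a3, a4, a5, a6, a7⟩ := scales hd hα hτ hγ hρ μW μL hℓ hW hL0 hI
      (δ := (n : ℝ≥0∞)⁻¹) (by simp)
    exact ae_step ⟨M, w, ε, a1, a2, a3, a4, a5, a6, a7⟩ ν (fun _ => rfl) (fun _ => rfl) hE hd hα0
      hlam
  have h2 : ∀ᵐ ω ∂(Measure.infinitePi ν), ∀ x y, dd α lam ω x y ≤
      explosion (Gr α lam ω) (Lw ω) x + explosion (Gr α lam ω) (Lw ω) y := by
    filter_upwards [h1] with ω h x y
    have ht : Tendsto (fun n : ℕ => explosion (Gr α lam ω) (Lw ω) x +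
        explosion (Gr α lam ω) (Lw ω) y + 4 * (n : ℝ≥0∞)⁻¹) atTop
        (𝓝 (explosion (Gr α lam ω) (Lw ω) x + explosion (Gr α lam ω) (Lw ω) y + 4 * 0)) :=
      tendsto_const_nhds.add (ENNReal.Tendsto.const_mul ENNReal.tendsto_inv_nat_nhds_zero
        (Or.inr (by simp)))
    simpa using ge_of_tendsto' ht fun n => h n x y
  rw [← law.map_eq] at h2
  have h3 : ∀ᵐ ω ∂P, ∀ v, 0 ≤ W v ω := by
    refine ae_all_iff.2 fun v => ?_
    have : ∀ᵐ z ∂μW, 0 ≤ z := by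
      have : ∀ᵐ z ∂μW, z ∈ Ici (1 : ℝ) := (prob_compl_eq_zero_iff measurableSet_Ici).2 hW1
      filter_upwards [this] with z hz
      linarith [mem_Ici.1 hz]
    rw [← (lawW v).map_eq] at this
    exact ae_of_ae_map (lawW v).aemeasurable this
  filter_upwards [ae_of_ae_map mX h2, h3] with ω h hw x y
  have e : Gr α lam (fun i => X i ω) = sfp α lam (fun v => W v ω) (fun e => E e ω) := by
    unfold Gr
    congr 1
    funext v
    exact max_eq_left (hw v)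
  have := h x y
  unfold dd at this
  rw [e] at this
  exact this

end Pool.Agent.H998Z.SFP
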