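import Mathlib

/-! Tools on an infinite product of probability measures on the real line. -/

namespace Pool.Agent.H998Z.SFP

open MeasureTheory Set
open scoped ENNReal

variable {I : Type} 

/-- The event `A` depends only on the coordinates in `J`. -/
def Dep (J : Set I) (A : Set (I → ℝ)) : Prop :=
  ∀ ω ω' : I → ℝ, (∀ i ∈ J, ω i = ω' i) → ω ∈ A → ω' ∈ A

lemma Dep.mono {J J' : Set I} {A : Set (I → ℝ)} (h : Dep J A) (hJ : J ⊆ J') : Dep J' A :=
  fun ω ω' e => h ω ω' fun i hi => e i (hJ hi)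

lemma Dep.compl {J : Set I} {A : Set (I → ℝ)} (h : Dep J A) : Dep J Aᶜ :=
  fun ω ω' e h1 h2 => h1 (h ω' ω (fun i hi => (e i hi).symm) h2)

lemma Dep.inter {J : Set I} {A B : Set (I → ℝ)} (h : Dep J A) (h' : Dep J B) : Dep J (A ∩ B) :=
  fun ω ω' e h1 => ⟨h ω ω' e h1.1, h' ω ω' e h1.2⟩

variable (ν : I → Measure ℝ) [∀ i, IsProbabilityMeasure (ν i)]

open Classical in
lemma measurable_piecewise (J : Set I) :
    Measurable (fun p : (I → ℝ) × (I → ℝ) => J.piecewise p.1 p.2) := by
  refine measurable_pi_iff.2 fun i => ?_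
  by_cases h : i ∈ J
  · simp only [piecewise_eq_of_mem _ _ _ h]; fun_prop
  · simp only [piecewise_eq_of_notMem _ _ _ h]; fun_prop

open Classical in
lemma map_piecewise (J : Set I) :
    ((Measure.infinitePi ν).prod (Measure.infinitePi ν)).map
      (fun p : (I → ℝ) × (I → ℝ) => J.piecewise p.1 p.2) = Measure.infinitePi ν := by
  refine Measure.eq_infinitePi ν fun s t ht => ?_
  rw [Measure.map_apply (measurable_piecewise J) (MeasurableSet.pi s.countable_toSet fun i _ => ht i)]
  have : (fun p : (I → ℝ) × (I → ℝ) => J.piecewise p.1 p.2) ⁻¹' (Set.pi s t) =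
      (Set.pi (s.filter (· ∈ J)) t) ×ˢ (Set.pi (s.filter (· ∉ J)) t) := by
    ext p
    simp only [mem_preimage, mem_pi, Finset.mem_coe, mem_prod, Finset.coe_filter, mem_ofPred_eq]
    constructor
    · intro h
      refine ⟨fun i hi => ?_, fun i hi => ?_⟩
      · have := h i hi.1; rwa [piecewise_eq_of_mem _ _ _ hi.2] at this
      · have := h i hi.1; rwa [piecewise_eq_of_notMem _ _ _ hi.2] at this
    · intro h i hi
      by_cases hJ : i ∈ J
      · rw [piecewise_eq_of_mem _ _ _ hJ]; exact h.1 i ⟨hi, hJ⟩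
      · rw [piecewise_eq_of_notMem _ _ _ hJ]; exact h.2 i ⟨hi, hJ⟩
  rw [this, Measure.prod_prod, Measure.infinitePi_pi ν (fun i _ => ht i),
    Measure.infinitePi_pi ν (fun i _ => ht i), Finset.prod_filter_mul_prod_filter_not]

open Classical in
lemma indep {J : Set I} {A B : Set (I → ℝ)} (mA : MeasurableSet A) (mB : MeasurableSet B)
    (hA : Dep J A) (hB : Dep Jᶜ B) :
    Measure.infinitePi ν (A ∩ B) = Measure.infinitePi ν A * Measure.infinitePi ν B := by
  conv_lhs => rw [← map_piecewise ν J]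
  rw [Measure.map_apply (measurable_piecewise J) (mA.inter mB), ← Measure.prod_prod]
  congr 1
  ext p
  simp only [mem_preimage, mem_inter_iff, mem_prod]
  have e1 : ∀ i ∈ J, J.piecewise p.1 p.2 i = p.1 i := fun i hi => piecewise_eq_of_mem _ _ _ hi
  have e2 : ∀ i ∈ Jᶜ, J.piecewise p.1 p.2 i = p.2 i := fun i hi => piecewise_eq_of_notMem _ _ _ hi
  exact ⟨fun h => ⟨hA _ _ e1 h.1, hB _ _ e2 h.2⟩, fun h =>
    ⟨hA _ _ (fun i hi => (e1 i hi).symm) h.1, hB _ _ (fun i hi => (e2 i hi).symm) h.2⟩⟩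

lemma indep_finset {M : Type} (C : Finset M) (J : M → Set I) (A : M → Set (I → ℝ))
    (mA : ∀ m ∈ C, MeasurableSet (A m)) (hA : ∀ m ∈ C, Dep (J m) (A m))
    (hJ : ∀ m ∈ C, ∀ m' ∈ C, m ≠ m' → Disjoint (J m) (J m')) :
    Measure.infinitePi ν (⋂ m ∈ C, A m) = ∏ m ∈ C, Measure.infinitePi ν (A m) := by
  classical
  induction C using Finset.induction_on with
  | empty => simp
  | insert a C ha ih =>
    rw [Finset.set_biInter_insert, Finset.prod_insert ha, ← ih (fun m hm => mA m (by simp [hm]))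
      (fun m hm => hA m (by simp [hm])) (fun m hm m' hm' => hJ m (by simp [hm]) m' (by simp [hm']))]
    refine indep ν (J := J a) (mA a (by simp))
      (Finset.measurableSet_biInter _ fun m hm => mA m (by simp [hm])) (hA a (by simp)) ?_
    intro ω ω' e h
    simp only [mem_iInter] at h ⊢
    intro m hm
    refine hA m (by simp [hm]) ω ω' (fun i hi => e i ?_) (h m hm)
    have := hJ a (by simp) m (by simp [hm]) (by rintro rfl; exact ha hm)
    exact fun hi' => Set.disjoint_left.1 this hi' hi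

lemma upset_ineq (ρ : Measure ℝ) [IsProbabilityMeasure ρ] {U : Set ℝ}
    (hU : ∀ a ∈ U, ∀ b, a ≤ b → b ∈ U) (K : ℝ) : ρ (Ici K) * ρ U ≤ ρ (U ∩ Ici K) := by
  by_cases h : U ⊆ Ici K
  · rw [inter_eq_left.2 h]
    exact mul_le_of_le_one_left' prob_le_one
  · obtain ⟨a, haU, ha⟩ := not_subset.1 h
    have : Ici K ⊆ U := fun b hb => hU a haU b (le_trans (le_of_lt (not_le.1 ha)) hb)
    rw [inter_eq_right.2 this]
    exact mul_le_of_le_one_right' prob_le_one

open Classical in
lemma harris (i : I) {A : Set (I → ℝ)} (mA : MeasurableSet A)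
    (hA : ∀ ω ∈ A, ∀ ω' : I → ℝ, (∀ j, j ≠ i → ω j = ω' j) → ω i ≤ ω' i → ω' ∈ A) (K : ℝ) :
    ν i (Ici K) * Measure.infinitePi ν A ≤ Measure.infinitePi ν (A ∩ {ω | K ≤ ω i}) := by
  have mK : MeasurableSet {ω : I → ℝ | K ≤ ω i} := measurableSet_le measurable_const (by fun_prop)
  have hm := measurable_piecewise (I := I) ({i}ᶜ : Set I)
  have key : ∀ B : Set (I → ℝ), MeasurableSet B → Measure.infinitePi ν B =
      ∫⁻ ω, ν i {w | Function.update ω i w ∈ B} ∂(Measure.infinitePi ν) := by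
    intro B mB
    conv_lhs => rw [← map_piecewise ν ({i}ᶜ : Set I)]
    rw [Measure.map_apply hm mB, Measure.prod_apply (hm mB)]
    refine lintegral_congr fun ω => ?_
    have mu : MeasurableSet {w : ℝ | Function.update ω i w ∈ B} := measurable_update ω mB
    rw [← Measure.infinitePi_map_eval ν i, Measure.map_apply (by fun_prop) mu]
    congr 1
    ext ω'
    simp only [mem_preimage, mem_ofPred_eq]
    refine iff_of_eq (congrArg (· ∈ B) ?_)
    ext j
    by_cases hj : j = i
    · subst hj; simp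
    · simp [hj]
  rw [key A mA, key _ (mA.inter mK), ← lintegral_const_mul' _ _ (measure_ne_top _ _)]
  refine lintegral_mono fun ω => ?_
  have : {w | Function.update ω i w ∈ A ∩ {ω | K ≤ ω i}} =
      {w | Function.update ω i w ∈ A} ∩ Ici K := by
    ext w; simp
  rw [this]
  refine upset_ineq _ (fun a ha b hab => ?_) K
  refine hA _ ha _ (fun j hj => ?_) (by simpa using hab)
  simp [Function.update_of_ne hj]

lemma null_of_cyl {Inf Succ : Set (I → ℝ)} (mI : MeasurableSet Inf) (mS : MeasurableSet Succ)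
    {c : ℝ≥0∞} (hc : c ≠ 0) (hc' : c ≠ ⊤)
    (h : ∀ (s : Finset I) (D : Set (I → ℝ)), MeasurableSet D → Dep s D →
      c * Measure.infinitePi ν (D ∩ Inf) ≤ Measure.infinitePi ν (D ∩ Succ)) :
    Measure.infinitePi ν (Inf \ Succ) = 0 := by
  set μ := Measure.infinitePi ν
  have key : ∀ η : ℝ≥0∞, 0 < η → c * μ (Inf \ Succ) ≤ η + c * η := by
    intro η hη
    obtain ⟨D, hD, hDη⟩ := exists_measure_symmDiff_lt_of_generateFrom_isSetRing (μ := μ)
      (isSetRing_measurableCylinders (α := fun _ : I => ℝ))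
      ⟨{univ}, by simp, by simpa using univ_mem_measurableCylinders (fun _ : I => ℝ), by simp⟩
      generateFrom_measurableCylinders.symm (mI.diff mS) hη
    obtain ⟨s, S, mS', rfl⟩ := (mem_measurableCylinders D).1 hD
    have hdep : Dep s (cylinder s S : Set (I → ℝ)) := by
      intro ω ω' e hω
      rw [mem_cylinder] at hω ⊢
      have : s.restrict ω' = s.restrict ω := by
        ext i; exact (e i i.2).symm
      rwa [this]
    have h1 := h s _ (mS'.cylinder s) hdep
    have h2 : μ (cylinder s S ∩ Succ) ≤ η := by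
      refine le_trans (measure_mono ?_) hDη.le
      intro ω hω
      exact Or.inl ⟨hω.1, fun h => h.2 hω.2⟩
    have h3 : μ (Inf \ Succ) ≤ μ (cylinder s S ∩ Inf) + η := by
      refine le_trans (measure_mono (t := (cylinder s S ∩ Inf) ∪
        symmDiff (cylinder s S) (Inf \ Succ)) ?_) ((measure_union_le _ _).trans ?_)
      · intro ω hω
        by_cases hD : ω ∈ (cylinder s S : Set (I → ℝ))
        · exact Or.inl ⟨hD, hω.1⟩
        · exact Or.inr (Or.inr ⟨hω, hD⟩)
      · gcongr
    calc c * μ (Inf \ Succ) ≤ c * (μ (cylinder s S ∩ Inf) + η) := by gcongr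
      _ = c * μ (cylinder s S ∩ Inf) + c * η := mul_add _ _ _
      _ ≤ η + c * η := by gcongr; exact h1.trans h2
  have : c * μ (Inf \ Succ) ≤ 0 := by
    have ht : Filter.Tendsto (fun η : ℝ≥0∞ => η + c * η) (nhdsWithin 0 (Ioi 0)) (nhds 0) := by
      have : Filter.Tendsto (fun η : ℝ≥0∞ => η + c * η) (nhds 0) (nhds (0 + c * 0)) :=
        Filter.tendsto_id.add (ENNReal.Tendsto.const_mul Filter.tendsto_id (Or.inr hc'))
      simpa using this.mono_left nhdsWithin_le_nhds
    exact ge_of_tendsto ht (eventually_nhdsWithin_of_forall fun η hη => key η hη)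
  simpa [hc] using this

end Pool.Agent.H998Z.SFP
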