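import Pool.Agent.H998Z.SFP.Graph
import Pool.Agent.H998Z.SFP.Prod

/-! The model on the canonical product space: events and their dependence. -/

namespace Pool.Agent.H998Z.SFP

open MeasureTheory Set Sum
open scoped ENNReal

/-- vertices -/
abbrev Vx (d : ℕ) : Type := Fin d → ℤ
/-- indices of the independent variables -/
abbrev Ix (d : ℕ) : Type := Vx d ⊕ (Sym2 (Vx d) ⊕ Sym2 (Vx d))

variable {d : ℕ}

/-- the graph of a configuration -/
noncomputable def Gr (α lam : ℝ) (ω : Ix d → ℝ) : SimpleGraph (Vx d) :=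
  sfp α lam (fun v => max (ω (inl v)) 0) (fun e => ω (inr (inl e)))
/-- the edge-weights of a configuration -/
def Lw (ω : Ix d → ℝ) : Sym2 (Vx d) → ℝ := fun e => ω (inr (inr e))
/-- step cost -/
noncomputable def cc (α lam : ℝ) (ω : Ix d → ℝ) : Vx d → Vx d → ℝ≥0∞ := cst (Gr α lam ω) (Lw ω)
/-- weighted distance -/
noncomputable def dd (α lam : ℝ) (ω : Ix d → ℝ) : Vx d → Vx d → ℝ≥0∞ := wdist (Gr α lam ω) (Lw ω)

variable {α lam : ℝ}

lemma meas_cc (x y : Vx d) : Measurable fun ω : Ix d → ℝ => cc α lam ω x y := by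
  unfold cc cst
  refine Measurable.ite ?_ (by unfold Lw; fun_prop) measurable_const
  change MeasurableSet {ω : Ix d → ℝ | euc x y = 1 ∨ (1 < euc x y ∧ ω (inr (inl s(x, y))) ≤
    1 - Real.exp (-(lam * (max (ω (inl x)) 0 * max (ω (inl y)) 0) / euc x y ^ α)))}
  refine (MeasurableSet.const _).union ((MeasurableSet.const _).inter ?_)
  change MeasurableSet {ω : Ix d → ℝ | ω (inr (inl s(x, y))) ≤
    1 - Real.exp (-(lam * (max (ω (inl x)) 0 * max (ω (inl y)) 0) / euc x y ^ α))}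
  exact measurableSet_le (by fun_prop) (by fun_prop)

lemma meas_lcost (l : List (Vx d)) (x : Vx d) :
    Measurable fun ω : Ix d → ℝ => lcost (cc α lam ω) x l := by
  induction l generalizing x with
  | nil => exact measurable_const
  | cons y l ih => exact (meas_cc x y).add (ih y)

lemma meas_dd (x y : Vx d) : Measurable fun ω : Ix d → ℝ => dd α lam ω x y := by
  unfold dd
  simp_rw [wdist_eq_list]
  exact Measurable.iInf fun l => Measurable.iInf fun _ => meas_lcost l x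

lemma cc_mono (hlam : 0 < lam) {ω ω' : Ix d → ℝ} {x y : Vx d} (hx : ω (inl x) ≤ ω' (inl x))
    (hy : ω (inl y) ≤ ω' (inl y)) (h1 : ω (inr (inl s(x, y))) = ω' (inr (inl s(x, y))))
    (h2 : ω (inr (inr s(x, y))) = ω' (inr (inr s(x, y)))) : cc α lam ω' x y ≤ cc α lam ω x y := by
  unfold cc cst
  by_cases h : (Gr α lam ω).Adj x y
  · have h' : (Gr α lam ω').Adj x y := by
      rcases h with h | ⟨ha, hb⟩
      · exact Or.inl h
      · refine Or.inr ⟨ha, ?_⟩
        have : 0 < euc x y ^ α := Real.rpow_pos_of_pos (by linarith) _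
        simp only at hb ⊢
        rw [← h1]
        refine hb.trans ?_
        gcongr
    rw [if_pos h, if_pos h']
    simp only [Lw, h2, le_refl]
  · rw [if_neg h]; exact le_top

/-- coordinates of the vertices in `Λ` or `A` and of the pairs meeting `Λ` -/
def Jc (Λ A : Set (Vx d)) : Set (Ix d) :=
  {i | Sum.elim (fun v => v ∈ Λ ∨ v ∈ A)
    (Sum.elim (fun e => ∃ z ∈ Λ, z ∈ e) (fun e => ∃ z ∈ Λ, z ∈ e)) i}

/-- `u` is reached from `x` through `Λ` at cost below `t` -/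
def Tev (α lam : ℝ) (Λ : Set (Vx d)) (x : Vx d) (t : ℝ≥0∞) (u : Vx d) : Set (Ix d → ℝ) :=
  {ω | ∃ l : List (Vx d), (∀ v ∈ l, v ∈ Λ) ∧
    lcost (cc α lam ω) x l + cc α lam ω (lend x l) u < t}

lemma meas_T (Λ : Set (Vx d)) (x : Vx d) (t : ℝ≥0∞) (u : Vx d) :
    MeasurableSet (Tev α lam Λ x t u) := by
  unfold Tev
  rw [ofPred_exists]
  exact MeasurableSet.iUnion fun l => (MeasurableSet.const _).inter
    (measurableSet_lt ((meas_lcost l x).add (meas_cc _ _)) measurable_const)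

lemma T_mono (hlam : 0 < lam) {Λ : Set (Vx d)} {x : Vx d} (hx : x ∈ Λ) {t : ℝ≥0∞} {u : Vx d}
    {ω ω' : Ix d → ℝ} (h : ∀ i ∈ Jc Λ ∅, ω i = ω' i) (hu : ω (inl u) ≤ ω' (inl u))
    (hω : ω ∈ Tev α lam Λ x t u) : ω' ∈ Tev α lam Λ x t u := by
  obtain ⟨l, hl, hc⟩ := hω
  have key : ∀ a ∈ Λ, ∀ b, ω (inl b) ≤ ω' (inl b) → cc α lam ω' a b ≤ cc α lam ω a b :=
    fun a ha b hb => cc_mono hlam (h _ (Or.inl ha)).le hb
      (h _ ⟨a, ha, Sym2.mem_mk_left _ _⟩) (h _ ⟨a, ha, Sym2.mem_mk_left _ _⟩)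
  refine ⟨l, hl, lt_of_le_of_lt (add_le_add ?_ (key _ (lend_mem l x hx hl) u hu)) hc⟩
  exact lcost_mono (fun a ha b hb => key a ha b (h _ (Or.inl hb)).le) l x hx hl

lemma T_dist {Λ : Set (Vx d)} {x : Vx d} {t : ℝ≥0∞} {u : Vx d} {ω : Ix d → ℝ}
    (hω : ω ∈ Tev α lam Λ x t u) : dd α lam ω x u < t := by
  obtain ⟨l, -, hc⟩ := hω
  exact lt_of_le_of_lt ((wdist_triangle _ _ x (lend x l) u).trans
    (add_le_add (wdist_le_lcost _ _ l x) (wdist_le_cst _ _ _ _))) hc

lemma exit_T {Λ : Set (Vx d)} {x y : Vx d} (hx : x ∈ Λ) (hy : y ∉ Λ) {t : ℝ≥0∞} {ω : Ix d → ℝ}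
    (h : dd α lam ω x y < t) : ∃ u, u ∉ Λ ∧ ω ∈ Tev α lam Λ x t u := by
  unfold dd at h
  rw [wdist_eq_list] at h
  obtain ⟨l, hl⟩ := iInf_lt_iff.1 h
  obtain ⟨e, hl⟩ := iInf_lt_iff.1 hl
  obtain ⟨u, hu, l', h1, h2⟩ := first_exit (cc α lam ω) Λ l x hx (e ▸ hy)
  exact ⟨u, hu, l', h1, lt_of_le_of_lt h2 hl⟩

/-- some vertex of `C` is heavy and has favourable edge variables towards `p` and `q` -/
def Hev (C : Finset (Vx d)) (w ρ ε : ℝ) (p q : Vx d) : Set (Ix d → ℝ) :=
  {ω | ∃ m ∈ C, (w ≤ ω (inl m) ∧ ω (inr (inl s(p, m))) ≤ ρ ∧ ω (inr (inr s(p, m))) ≤ ε) ∧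
    (ω (inr (inl s(q, m))) ≤ ρ ∧ ω (inr (inr s(q, m))) ≤ ε)}

lemma meas_H (C : Finset (Vx d)) (w ρ ε : ℝ) (p q : Vx d) : MeasurableSet (Hev C w ρ ε p q) := by
  unfold Hev
  measurability

lemma prob_not_H (ν : Ix d → Measure ℝ) [∀ i, IsProbabilityMeasure (ν i)] {μW μL : Measure ℝ}
    (hW : ∀ v, ν (inl v) = μW) (hL : ∀ e, ν (inr (inr e)) = μL) {ρ : ℝ} (hρ : 0 ≤ ρ)
    (hE : ∀ e, (ν (inr (inl e))).real (Iic ρ) = ρ)
    (C : Finset (Vx d)) (w ε : ℝ) {p q : Vx d} (hp : p ∉ C) (hq : q ∉ C) :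
    Measure.infinitePi ν (Hev C w ρ ε p q)ᶜ ≤ ENNReal.ofReal (Real.exp (-((C.card : ℝ) *
      (μW.real (Ici w) * (ρ * μL.real (Iic ε)) ^ 2)))) := by
  classical
  set μ := Measure.infinitePi ν with hμ
  set B : Vx d → Set (Ix d → ℝ) := fun m =>
    {ω | (w ≤ ω (inl m) ∧ ω (inr (inl s(p, m))) ≤ ρ ∧ ω (inr (inr s(p, m))) ≤ ε) ∧
    (ω (inr (inl s(q, m))) ≤ ρ ∧ ω (inr (inr s(q, m))) ≤ ε)} with hB
  have mB : ∀ m, MeasurableSet (B m) := fun m => by simp only [hB]; measurability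
  have e : (Hev C w ρ ε p q)ᶜ = ⋂ m ∈ C, (B m)ᶜ := by
    ext ω; simp only [Hev, hB, mem_compl_iff, mem_ofPred_eq, mem_iInter, not_exists, not_and (a := _ ∈ C)]
  rw [e, indep_finset ν C (fun m => {inl m, inr (inl s(p, m)), inr (inr s(p, m)),
    inr (inl s(q, m)), inr (inr s(q, m))}) _ (fun m _ => (mB m).compl)]
  · have hb : ∀ m ∈ C, μW.real (Ici w) * (ρ * μL.real (Iic ε)) ^ 2 ≤ μ.real (B m) := by
      intro m hm
      set t : Ix d → Set ℝ := Sum.elim (fun _ => Ici w) (Sum.elim (fun _ => Iic ρ) fun _ => Iic ε)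
        with ht
      have mt : ∀ i, MeasurableSet (t i) := by
        rintro (v | e | e)
        · exact measurableSet_Ici
        · exact measurableSet_Iic
        · exact measurableSet_Iic
      have hρ1 : ρ ≤ 1 := by rw [← hE s(p, m)]; exact measureReal_le_one
      have hF1 : μL.real (Iic ε) ≤ 1 := by rw [← hL s(p, m)]; exact measureReal_le_one
      have hF0 : 0 ≤ μL.real (Iic ε) := measureReal_nonneg
      have hW0 : 0 ≤ μW.real (Ici w) := measureReal_nonneg
      by_cases hpq : p = q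
      · subst hpq
        have : B m = Set.pi (({inl m, inr (inl s(p, m)), inr (inr s(p, m))} : Finset (Ix d)) :
            Set (Ix d)) t := by
          ext ω; simp [hB, ht]
        rw [this, measureReal_def (μ := μ), hμ, Measure.infinitePi_pi ν fun i _ => mt i,
          Finset.prod_insert (by simp), Finset.prod_insert (by simp), Finset.prod_singleton,
          ENNReal.toReal_mul, ENNReal.toReal_mul, hW, hL]
        have h1 := hE s(p, m)
        simp only [ht, Sum.elim_inl, Sum.elim_inr, Measure.real] at h1 hF1 hF0 hW0 ⊢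
        rw [h1]
        refine mul_le_mul_of_nonneg_left ?_ hW0
        have : ρ * (μL (Iic ε)).toReal ≤ 1 := mul_le_one₀ hρ1 hF0 hF1
        have : 0 ≤ ρ * (μL (Iic ε)).toReal := mul_nonneg hρ hF0
        nlinarith
      · have hne : s(p, m) ≠ s(q, m) := by
          intro h
          rcases Sym2.eq_iff.1 h with h | h
          · exact hpq h.1
          · exact hp (h.1 ▸ hm)
        have : B m = Set.pi (({inl m, inr (inl s(p, m)), inr (inr s(p, m)), inr (inl s(q, m)),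
            inr (inr s(q, m))} : Finset (Ix d)) : Set (Ix d)) t := by
          ext ω; simp [hB, ht, and_assoc]
        rw [this, measureReal_def (μ := μ), hμ, Measure.infinitePi_pi ν fun i _ => mt i,
          Finset.prod_insert (by simp), Finset.prod_insert (by simpa using hne),
          Finset.prod_insert (by simpa using hne), Finset.prod_insert (by simp),
          Finset.prod_singleton, ENNReal.toReal_mul, ENNReal.toReal_mul, ENNReal.toReal_mul,
          ENNReal.toReal_mul, hW, hL, hL]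
        have h1 := hE s(p, m)
        have h2 := hE s(q, m)
        simp only [ht, Sum.elim_inl, Sum.elim_inr, Measure.real] at h1 h2 ⊢
        rw [h1, h2]
        exact le_of_eq (by ring)
    calc ∏ m ∈ C, μ (B m)ᶜ ≤ ∏ _m ∈ C, ENNReal.ofReal (Real.exp
          (-(μW.real (Ici w) * (ρ * μL.real (Iic ε)) ^ 2))) := by
          refine Finset.prod_le_prod' fun m hm => ?_
          rw [← ofReal_measureReal, probReal_compl_eq_one_sub (mB m)]
          refine ENNReal.ofReal_le_ofReal ?_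
          have := Real.add_one_le_exp (-(μW.real (Ici w) * (ρ * μL.real (Iic ε)) ^ 2))
          linarith [hb m hm]
      _ = _ := by
          rw [Finset.prod_const, ← ENNReal.ofReal_pow (Real.exp_pos _).le, ← Real.exp_nat_mul]
          congr 2; ring
  · intro m _
    refine Dep.compl fun ω ω' e h => ?_
    simp only [hB, mem_ofPred_eq] at h ⊢
    rw [← e _ (by simp), ← e _ (by simp), ← e _ (by simp), ← e _ (by simp), ← e _ (by simp)]
    exact h
  · intro m hm m' hm' hne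
    have k : ∀ a b : Vx d, a ∉ C → b ∉ C → s(a, m) ≠ s(b, m') := by
      intro a b ha _ h
      rcases Sym2.eq_iff.1 h with h | h
      · exact hne h.2
      · exact ha (h.1 ▸ hm')
    have k1 := k p p hp hp
    have k2 := k p q hp hq
    have k3 := k q p hq hp
    have k4 := k q q hq hq
    refine Set.disjoint_left.2 fun i h1 h2 => ?_
    simp only [mem_insert_iff, mem_singleton_iff] at h1 h2
    rcases h1 with rfl | rfl | rfl | rfl | rfl <;>
      simp only [inl.injEq, inr.injEq, reduceCtorEq, or_false, false_or] at h2 <;> tauto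

lemma one_le_euc {x y : Vx d} (h : x ≠ y) : 1 ≤ euc x y := by
  obtain ⟨i, hi⟩ := Function.ne_iff.1 h
  refine Real.le_sqrt_of_sq_le ?_
  have h1 : (1 : ℤ) ≤ (x i - y i) ^ 2 := by
    have : x i - y i ≠ 0 := sub_ne_zero.2 hi
    have := sq_pos_of_ne_zero this
    omega
  have h2 : (1 : ℝ) ≤ ((x i : ℝ) - y i) ^ 2 := by exact_mod_cast h1
  rw [one_pow]
  exact h2.trans (Finset.single_le_sum (f := fun i => ((x i : ℝ) - y i) ^ 2)
    (fun _ _ => sq_nonneg _) (Finset.mem_univ i))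

lemma euc_le {x y : Vx d} (hd : 1 ≤ d) {R : ℕ} (h : ∀ i, |x i - y i| ≤ R) : euc x y ≤ d * R := by
  refine Real.sqrt_le_iff.2 ⟨by positivity, ?_⟩
  have h1 : ∀ i, ((x i : ℝ) - y i) ^ 2 ≤ (R : ℝ) ^ 2 := fun i => by
    have : |(x i : ℝ) - y i| ≤ R := by exact_mod_cast h i
    exact sq_le_sq' (abs_le.1 this).1 (abs_le.1 this).2
  have hD : (1 : ℝ) ≤ d := by exact_mod_cast hd
  calc ∑ i, ((x i : ℝ) - y i) ^ 2 ≤ ∑ _i : Fin d, (R : ℝ) ^ 2 := Finset.sum_le_sum fun i _ => h1 i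
    _ = d * (R : ℝ) ^ 2 := by simp
    _ ≤ (d * R) ^ 2 := by nlinarith [sq_nonneg (R : ℝ), mul_nonneg (sub_nonneg.2 hD) (mul_nonneg (by linarith : (0:ℝ) ≤ d) (sq_nonneg (R : ℝ)))]

lemma dd_le_of (hd : 1 ≤ d) (hα : 0 < α) (hlam : 0 < lam) {ω : Ix d → ℝ} {p m : Vx d}
    (hne : p ≠ m) {M : ℕ} (hR : ∀ i, |p i - m i| ≤ (6 * M : ℕ)) {w w' ε : ℝ}
    (hw' : 0 ≤ w') (hww : (6 * d * M : ℝ) ^ α ≤ w * w') (hp : w ≤ ω (inl p)) (hm : w' ≤ ω (inl m))
    (hE : ω (inr (inl s(p, m))) ≤ 1 - Real.exp (-lam)) (hL : ω (inr (inr s(p, m))) ≤ ε) :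
    dd α lam ω p m ≤ ENNReal.ofReal ε := by
  refine (wdist_le_cst _ _ p m).trans ?_
  have hadj : (Gr α lam ω).Adj p m := by
    rcases (one_le_euc hne).lt_or_eq with h | h
    · refine Or.inr ⟨h, hE.trans ?_⟩
      have h0 : 0 < euc p m ^ α := Real.rpow_pos_of_pos (by linarith) _
      have h1 : euc p m ^ α ≤ max (ω (inl p)) 0 * max (ω (inl m)) 0 := by
        calc euc p m ^ α ≤ (6 * d * M : ℝ) ^ α := by
              refine Real.rpow_le_rpow (by linarith) ((euc_le hd hR).trans (le_of_eq ?_)) hα.le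
              push_cast; ring
          _ ≤ w * w' := hww
          _ ≤ _ := mul_le_mul (le_max_of_le_left hp) (le_max_of_le_left hm) hw'
            (le_max_right _ _)
      have h2 : lam ≤ lam * (max (ω (inl p)) 0 * max (ω (inl m)) 0) / euc p m ^ α := by
        rw [le_div_iff₀ h0]; gcongr
      simp only
      gcongr
    · exact Or.inl h.symm
  unfold cst
  rw [if_pos hadj]
  exact ENNReal.ofReal_le_ofReal hL

end Pool.Agent.H998Z.SFP
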